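import Mathlib

open Polynomial MeasureTheory Set Filter Topology

namespace Pool.Agent.Results.MP_d164ca_an.RationalFunctions

/-- `∑_k C(n,k) f(k) y^k` -/
noncomputable def jenC (f : ℕ → ℂ) (n : ℕ) (y : ℂ) : ℂ :=
  ∑ k ∈ Finset.range (n + 1), (n.choose k : ℂ) * f k * y ^ k

/-- values of `P(z)/∏(z + α)` -/
noncomputable def rv (P : ℂ[X]) (S : Multiset ℂ) (k : ℕ) : ℂ :=
  P.eval (k:ℂ) / (S.map (fun α => (k:ℂ) + α)).prod

/-- `s(s+1)⋯(s+n-1)/n!` -/
noncomputable def cc (n : ℕ) (s : ℂ) : ℂ := (∏ j ∈ Finset.range n, (s + j)) / (n.factorial : ℂ)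
/-- `∑_k C(n,k) F(k) x^k` -/
noncomputable def jen (F : ℕ → ℝ) (n : ℕ) : ℝ[X] :=
  ∑ k ∈ Finset.range (n + 1), C ((n.choose k : ℝ) * F k) * X ^ k

/-- `act l p`: the polynomial `∑ l k * a_k * x^k` for `p = ∑ a_k x^k`. -/
noncomputable def act (l : ℕ → ℝ) (p : ℝ[X]) : ℝ[X] :=
  ∑ k ∈ Finset.range (p.natDegree + 1), C (l k * p.coeff k) * X ^ k

/-- a polynomial is hyperbolic if all its complex zeros are real (the zero polynomial is allowed) -/
def Hyperbolic (p : ℝ[X]) : Prop := p = 0 ∨ ∀ z : ℂ, aeval z p = 0 → z.im = 0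

/-- multiplier sequence -/
def IsMultiplier (g : ℕ → ℝ) : Prop := ∀ p : ℝ[X], Hyperbolic p → Hyperbolic (act g p)

/-! ### part D1 -/

theorem MERD1_prod (s : Multiset ℂ) (hs : ∀ a ∈ s, a.im = 0) (x : ℝ) :
    ‖(s.map (fun a => (x:ℂ) - a)).prod‖ * ‖(s.map (fun a => (-(x:ℂ)) - a)).prod‖ ≤
      ‖(s.map (fun a => (x:ℂ) * Complex.I - a)).prod‖ ^ 2 := by
  induction s using Multiset.induction_on with
  | empty => simp
  | cons a s ih =>
    have ih' := ih (fun b hb => hs b (Multiset.mem_cons_of_mem hb))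
    have ha : a.im = 0 := hs a (Multiset.mem_cons_self a s)
    simp only [Multiset.map_cons, Multiset.prod_cons, norm_mul]
    have h1 : ‖(x:ℂ) - a‖ * ‖(-(x:ℂ)) - a‖ ≤ ‖(x:ℂ) * Complex.I - a‖ ^ 2 := by
      have har : a = (a.re : ℂ) := by
        apply Complex.ext
        · simp
        · simp [ha]
      rw [har]
      have e1 : (x:ℂ) - (a.re : ℂ) = ((x - a.re : ℝ) : ℂ) := by push_cast; ring
      have e2 : (-(x:ℂ)) - (a.re : ℂ) = ((-x - a.re : ℝ) : ℂ) := by push_cast; ring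
      rw [e1, e2, Complex.norm_real, Complex.norm_real, ← norm_mul, Real.norm_eq_abs,
        ← Complex.normSq_eq_norm_sq, Complex.normSq_apply]
      have e3 : ((x:ℂ) * Complex.I - (a.re:ℂ)).re = -a.re := by simp
      have e4 : ((x:ℂ) * Complex.I - (a.re:ℂ)).im = x := by simp
      rw [e3, e4, abs_le]
      constructor <;> nlinarith [sq_nonneg x, sq_nonneg a.re]
    calc ‖(x:ℂ) - a‖ * ‖(s.map (fun a => (x:ℂ) - a)).prod‖ *
          (‖(-(x:ℂ)) - a‖ * ‖(s.map (fun a => (-(x:ℂ)) - a)).prod‖)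
        = (‖(x:ℂ) - a‖ * ‖(-(x:ℂ)) - a‖) * (‖(s.map (fun a => (x:ℂ) - a)).prod‖ *
          ‖(s.map (fun a => (-(x:ℂ)) - a)).prod‖) := by ring
      _ ≤ ‖(x:ℂ) * Complex.I - a‖ ^ 2 *
          ‖(s.map (fun a => (x:ℂ) * Complex.I - a)).prod‖ ^ 2 :=
          mul_le_mul h1 ih' (by positivity) (by positivity)
      _ = (‖(x:ℂ) * Complex.I - a‖ * ‖(s.map (fun a => (x:ℂ) * Complex.I - a)).prod‖) ^ 2 := by
          ring

theorem real_rooted_ineq (g : ℝ[X]) (hg : g = 0 ∨ ∀ z : ℂ, aeval z g = 0 → z.im = 0) (x : ℝ) :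
    |g.eval x * g.eval (-x)| ≤ ‖aeval ((x:ℂ) * Complex.I) g‖ ^ 2 := by
  rcases eq_or_ne g 0 with h0 | h0
  · subst h0
    simp
  have hg' : ∀ z : ℂ, aeval z g = 0 → z.im = 0 := by
    rcases hg with h | h
    · exact absurd h h0
    · exact h
  obtain ⟨G, hG⟩ : ∃ G : ℂ[X], G = g.map (algebraMap ℝ ℂ) := ⟨_, rfl⟩
  have hGs : G.Splits := IsAlgClosed.splits G
  have hev : ∀ z : ℂ, aeval z g = G.eval z := by
    intro z
    rw [hG, eval_map, aeval_def]
  have hG0 : G ≠ 0 := by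
    rw [hG]
    exact (Polynomial.map_ne_zero_iff (algebraMap ℝ ℂ).injective).2 h0
  have hroots : ∀ a ∈ G.roots, a.im = 0 := by
    intro a ha
    apply hg'
    rw [hev]
    exact (mem_roots hG0).1 ha
  have hre : ∀ y : ℝ, ((g.eval y : ℝ) : ℂ) = G.eval (y:ℂ) := by
    intro y
    rw [hG, eval_map]
    exact (Polynomial.eval₂_at_apply (algebraMap ℝ ℂ) y).symm
  have h1 := MERD1_prod G.roots hroots x
  have hL : |g.eval x * g.eval (-x)| = ‖G.eval (x:ℂ)‖ * ‖G.eval (-(x:ℂ))‖ := by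
    rw [abs_mul, ← Real.norm_eq_abs, ← Real.norm_eq_abs, ← Complex.norm_real, ← Complex.norm_real,
      hre x, hre (-x)]
    push_cast
    rfl
  rw [hL, hev, hGs.eval_eq_prod_roots, hGs.eval_eq_prod_roots, hGs.eval_eq_prod_roots]
  simp only [norm_mul]
  have h2 := mul_le_mul_of_nonneg_left h1 (by positivity : 0 ≤ ‖G.leadingCoeff‖ ^ 2)
  calc _ = ‖G.leadingCoeff‖ ^ 2 * (‖(G.roots.map (fun a => (x:ℂ) - a)).prod‖ *
        ‖(G.roots.map (fun a => (-(x:ℂ)) - a)).prod‖) := by ring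
    _ ≤ _ := h2
    _ = _ := by ring

/-! ### shifts -/

theorem act_coeff (l : ℕ → ℝ) (p : ℝ[X]) (n : ℕ) : (act l p).coeff n = l n * p.coeff n := by
  unfold act
  rw [finsetSum_coeff]
  simp only [coeff_C_mul_X_pow]
  rw [Finset.sum_ite_eq]
  split_ifs with h
  · rfl
  · have : p.coeff n = 0 := by
      apply coeff_eq_zero_of_natDegree_lt
      simp only [Finset.mem_range, not_lt] at h
      omega
    rw [this, mul_zero]

/-- Shifting a multiplier sequence gives a multiplier sequence. -/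
theorem mult_shift (g : ℕ → ℝ) (hg : IsMultiplier g) : IsMultiplier (fun k => g (k + 1)) := by
  intro p hp
  have h1 : Hyperbolic (X * p) := by
    rcases hp with h | h
    · left; rw [h, mul_zero]
    · right
      intro z hz
      rw [map_mul, aeval_X] at hz
      rcases mul_eq_zero.mp hz with hz | hz
      · rw [hz]; rfl
      · exact h z hz
  have h2 : act g (X * p) = X * act (fun k => g (k + 1)) p := by
    ext n
    rw [act_coeff]
    rcases n with _ | n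
    · simp
    · rw [coeff_X_mul, coeff_X_mul, act_coeff]
  have h3 := hg _ h1
  rw [h2] at h3
  rcases h3 with h | h
  · left
    exact (mul_eq_zero.mp h).resolve_left X_ne_zero
  · right
    intro z hz
    exact h z (by rw [map_mul, hz, mul_zero])

theorem mult_shift_iter (g : ℕ → ℝ) (hg : IsMultiplier g) (m : ℕ) :
    IsMultiplier (fun k => g (k + m)) := by
  induction m with
  | zero => simpa using hg
  | succ m ih =>
    have := mult_shift _ ih
    have e : (fun k => g (k + (m + 1))) = (fun k => g (k + 1 + m)) := by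
      funext k
      congr 1
      ring
    rw [e]
    exact this

theorem act_binom (g : ℕ → ℝ) (n : ℕ) : act g ((1 + X) ^ n) = jen g n := by
  ext k
  rw [act_coeff, coeff_one_add_X_pow]
  unfold jen
  rw [finsetSum_coeff]
  simp only [coeff_C_mul_X_pow]
  rw [Finset.sum_ite_eq]
  split_ifs with h
  · ring
  · rw [Nat.choose_eq_zero_of_lt (by simpa using h)]
    simp

theorem jen_hyperbolic (g : ℕ → ℝ) (hg : IsMultiplier g) (n : ℕ) : Hyperbolic (jen g n) := by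
  rw [← act_binom]
  apply hg
  right
  intro z hz
  rw [map_pow, map_add, map_one, aeval_X] at hz
  have h1 : 1 + z = 0 := by
    by_contra hne
    exact pow_ne_zero n hne hz
  have h2 : z = -1 := by linear_combination h1
  rw [h2]; simp


/-! ### part R1 -/

theorem jen_bound_const (a v : ℂ) (M : ℝ) (hM1 : 1 ≤ M)
    (hM : ∀ t : ℝ, 0 ≤ t → t ≤ 1 → ‖1 + t * v‖ ≤ M) :
    ∃ (C : ℝ) (D : ℕ), 0 < C ∧ ∀ (n : ℕ) (t : ℝ), 0 ≤ t → t ≤ 1 →
      ‖jenC (fun _ => a) n (t * v)‖ ≤ C * ((n:ℝ) + 1) ^ D * M ^ n := by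
  refine ⟨‖a‖ + 1, 0, by positivity, ?_⟩
  intro n t h0 h1
  have e : jenC (fun _ => a) n (t * v) = a * (1 + t * v) ^ n := by
    rw [add_comm (1:ℂ), add_pow, jenC, Finset.mul_sum]
    refine Finset.sum_congr rfl fun k _ => ?_
    rw [one_pow]; ring
  rw [e, norm_mul, norm_pow, pow_zero, mul_one]
  have h2 : ‖1 + (t:ℂ) * v‖ ^ n ≤ M ^ n := pow_le_pow_left₀ (norm_nonneg _) (hM t h0 h1) n
  have h3 : 0 ≤ M ^ n := by positivity
  nlinarith [norm_nonneg a]

theorem jen_bound_add (f g : ℕ → ℂ) (v : ℂ) (M : ℝ) (hM1 : 1 ≤ M)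
    (hf : ∃ (C : ℝ) (D : ℕ), 0 < C ∧ ∀ (n : ℕ) (t : ℝ), 0 ≤ t → t ≤ 1 →
      ‖jenC f n (t * v)‖ ≤ C * ((n:ℝ) + 1) ^ D * M ^ n)
    (hg : ∃ (C : ℝ) (D : ℕ), 0 < C ∧ ∀ (n : ℕ) (t : ℝ), 0 ≤ t → t ≤ 1 →
      ‖jenC g n (t * v)‖ ≤ C * ((n:ℝ) + 1) ^ D * M ^ n) :
    ∃ (C : ℝ) (D : ℕ), 0 < C ∧ ∀ (n : ℕ) (t : ℝ), 0 ≤ t → t ≤ 1 →
      ‖jenC (fun k => f k + g k) n (t * v)‖ ≤ C * ((n:ℝ) + 1) ^ D * M ^ n := by
  obtain ⟨C1, D1, hC1, h1⟩ := hf
  obtain ⟨C2, D2, hC2, h2⟩ := hg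
  refine ⟨C1 + C2, max D1 D2, by positivity, ?_⟩
  intro n t h0 ht
  have e : jenC (fun k => f k + g k) n (t * v) = jenC f n (t * v) + jenC g n (t * v) := by
    simp only [jenC, ← Finset.sum_add_distrib]
    refine Finset.sum_congr rfl fun k _ => ?_
    ring
  rw [e]
  have hn : (1:ℝ) ≤ (n:ℝ) + 1 := by
    have : (0:ℝ) ≤ (n:ℝ) := Nat.cast_nonneg n
    linarith
  have p1 : ((n:ℝ) + 1) ^ D1 ≤ ((n:ℝ) + 1) ^ (max D1 D2) := pow_le_pow_right₀ hn (le_max_left _ _)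
  have p2 : ((n:ℝ) + 1) ^ D2 ≤ ((n:ℝ) + 1) ^ (max D1 D2) := pow_le_pow_right₀ hn (le_max_right _ _)
  have hMn : 0 ≤ M ^ n := by positivity
  have q1 : C1 * ((n:ℝ) + 1) ^ D1 * M ^ n ≤ C1 * ((n:ℝ) + 1) ^ (max D1 D2) * M ^ n :=
    mul_le_mul_of_nonneg_right (mul_le_mul_of_nonneg_left p1 hC1.le) hMn
  have q2 : C2 * ((n:ℝ) + 1) ^ D2 * M ^ n ≤ C2 * ((n:ℝ) + 1) ^ (max D1 D2) * M ^ n :=
    mul_le_mul_of_nonneg_right (mul_le_mul_of_nonneg_left p2 hC2.le) hMn
  calc ‖jenC f n (t * v) + jenC g n (t * v)‖ ≤ ‖jenC f n (t * v)‖ + ‖jenC g n (t * v)‖ :=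
        norm_add_le _ _
    _ ≤ C1 * ((n:ℝ) + 1) ^ (max D1 D2) * M ^ n + C2 * ((n:ℝ) + 1) ^ (max D1 D2) * M ^ n :=
        add_le_add ((h1 n t h0 ht).trans q1) ((h2 n t h0 ht).trans q2)
    _ = (C1 + C2) * ((n:ℝ) + 1) ^ (max D1 D2) * M ^ n := by ring

theorem jen_bound_key (f : ℕ → ℂ) (n : ℕ) (y : ℂ) :
    jenC (fun k => (k:ℂ) * f k) (n + 1) y = ((n:ℂ) + 1) * (jenC f (n + 1) y - jenC f n y) := by
  have e : jenC f n y = ∑ k ∈ Finset.range (n + 1 + 1), (n.choose k : ℂ) * f k * y ^ k := by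
    rw [Finset.sum_range_succ, Nat.choose_succ_self]
    simp [jenC]
  rw [e]
  simp only [jenC]
  rw [← Finset.sum_sub_distrib, Finset.mul_sum]
  refine Finset.sum_congr rfl fun k hk => ?_
  have hk' : k ≤ n + 1 := by
    have := Finset.mem_range.mp hk
    omega
  have hc := Nat.choose_mul_succ_eq n k
  have hc' : ((n.choose k : ℕ) : ℂ) * ((n:ℂ) + 1) = (((n+1).choose k : ℕ) : ℂ) * ((n:ℂ) + 1 - k) := by
    have := congrArg (Nat.cast : ℕ → ℂ) hc
    rw [Nat.cast_mul, Nat.cast_mul, Nat.cast_sub hk'] at this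
    push_cast at this
    exact this
  linear_combination (f k * y ^ k) * hc'

theorem jen_bound_mulk (f : ℕ → ℂ) (v : ℂ) (M : ℝ) (hM1 : 1 ≤ M)
    (hf : ∃ (C : ℝ) (D : ℕ), 0 < C ∧ ∀ (n : ℕ) (t : ℝ), 0 ≤ t → t ≤ 1 →
      ‖jenC f n (t * v)‖ ≤ C * ((n:ℝ) + 1) ^ D * M ^ n) :
    ∃ (C : ℝ) (D : ℕ), 0 < C ∧ ∀ (n : ℕ) (t : ℝ), 0 ≤ t → t ≤ 1 →
      ‖jenC (fun k => (k:ℂ) * f k) n (t * v)‖ ≤ C * ((n:ℝ) + 1) ^ D * M ^ n := by
  obtain ⟨C, D, hC, h⟩ := hf
  refine ⟨2 * C, D + 1, by positivity, ?_⟩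
  intro n t h0 ht
  rcases n with _ | n
  · have : jenC (fun k => (k:ℂ) * f k) 0 (t * v) = 0 := by simp [jenC]
    rw [this, norm_zero]
    positivity
  · rw [jen_bound_key, norm_mul]
    have hnn : (0:ℝ) ≤ (n:ℝ) := Nat.cast_nonneg n
    have e1 : ‖(n:ℂ) + 1‖ = (n:ℝ) + 1 := by
      have : ((n:ℂ) + 1) = (((n:ℝ) + 1 : ℝ) : ℂ) := by push_cast; rfl
      rw [this, Complex.norm_real, Real.norm_eq_abs, abs_of_nonneg (by positivity)]
    rw [e1]
    have a1 := h (n + 1) t h0 ht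
    have a2 := h n t h0 ht
    have hM0 : 0 ≤ M := by linarith
    have hMn : 0 ≤ M ^ n := by positivity
    have b0 : ((n + 1 : ℕ) : ℝ) + 1 = (n:ℝ) + 2 := by push_cast; ring
    rw [b0] at a1 ⊢
    have b1 : ((n:ℝ) + 1) ^ D ≤ ((n:ℝ) + 2) ^ D :=
      pow_le_pow_left₀ (by positivity) (by linarith) D
    have b2 : M ^ n ≤ M ^ (n + 1) := pow_le_pow_right₀ hM1 (Nat.le_succ n)
    have b3 : C * ((n:ℝ) + 1) ^ D * M ^ n ≤ C * ((n:ℝ) + 2) ^ D * M ^ (n + 1) :=
      mul_le_mul (mul_le_mul_of_nonneg_left b1 hC.le) b2 hMn (by positivity)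
    have b4 : ‖jenC f (n + 1) (t * v) - jenC f n (t * v)‖ ≤
        2 * (C * ((n:ℝ) + 2) ^ D * M ^ (n + 1)) := by
      refine (norm_sub_le _ _).trans ?_
      linarith [a1, a2.trans b3]
    calc ((n:ℝ) + 1) * ‖jenC f (n + 1) (t * v) - jenC f n (t * v)‖
        ≤ ((n:ℝ) + 2) * (2 * (C * ((n:ℝ) + 2) ^ D * M ^ (n + 1))) :=
          mul_le_mul (by linarith) b4 (norm_nonneg _) (by positivity)
      _ = 2 * C * ((n:ℝ) + 2) ^ (D + 1) * M ^ (n + 1) := by ring

theorem jen_bound_poly (P : ℂ[X]) (v : ℂ) (M : ℝ) (hM1 : 1 ≤ M)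
    (hM : ∀ t : ℝ, 0 ≤ t → t ≤ 1 → ‖1 + t * v‖ ≤ M) :
    ∃ (C : ℝ) (D : ℕ), 0 < C ∧ ∀ (n : ℕ) (t : ℝ), 0 ≤ t → t ≤ 1 →
      ‖jenC (fun k => P.eval (k:ℂ)) n (t * v)‖ ≤ C * ((n:ℝ) + 1) ^ D * M ^ n := by
  induction P using Polynomial.induction_on with
  | C a =>
    have := jen_bound_const a v M hM1 hM
    simpa only [Polynomial.eval_C] using this
  | add p q hp hq =>
    have := jen_bound_add _ _ v M hM1 hp hq
    simpa only [Polynomial.eval_add] using this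
  | monomial m a hm =>
    have := jen_bound_mulk _ v M hM1 hm
    have e : (fun k : ℕ => (k:ℂ) * Polynomial.eval (k:ℂ) (Polynomial.C a * X ^ m)) =
        fun k : ℕ => Polynomial.eval (k:ℂ) (Polynomial.C a * X ^ (m + 1)) := by
      funext k
      simp only [Polynomial.eval_mul, Polynomial.eval_C, Polynomial.eval_pow, Polynomial.eval_X]
      ring
    rw [e] at this
    exact this

theorem jen_bound_div (f : ℕ → ℂ) (α : ℂ) (hα : 0 < α.re) (v : ℂ) (M : ℝ) (hM1 : 1 ≤ M)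
    (hf : ∃ (C : ℝ) (D : ℕ), 0 < C ∧ ∀ (n : ℕ) (t : ℝ), 0 ≤ t → t ≤ 1 →
      ‖jenC f n (t * v)‖ ≤ C * ((n:ℝ) + 1) ^ D * M ^ n) :
    ∃ (C : ℝ) (D : ℕ), 0 < C ∧ ∀ (n : ℕ) (t : ℝ), 0 ≤ t → t ≤ 1 →
      ‖jenC (fun k => f k / ((k:ℂ) + α)) n (t * v)‖ ≤ C * ((n:ℝ) + 1) ^ D * M ^ n := by
  obtain ⟨C, D, hC, h⟩ := hf
  refine ⟨C / α.re, D, by positivity, ?_⟩
  intro n t h0 ht
  have hre : ∀ k : ℕ, -1 < (α - 1 + (k:ℂ)).re := by
    intro k
    simp only [Complex.add_re, Complex.sub_re, Complex.one_re, Complex.natCast_re]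
    have : (0:ℝ) ≤ (k:ℝ) := Nat.cast_nonneg k
    linarith
  have hne : ∀ k : ℕ, (k:ℂ) + α ≠ 0 := by
    intro k hk
    have := congrArg Complex.re hk
    simp only [Complex.add_re, Complex.natCast_re, Complex.zero_re] at this
    have h2 : (0:ℝ) ≤ (k:ℝ) := Nat.cast_nonneg k
    linarith
  have hint : ∀ k : ℕ, (∫ u in (0:ℝ)..1, (u:ℂ) ^ (α - 1 + (k:ℂ))) = 1 / ((k:ℂ) + α) := by
    intro k
    rw [integral_cpow (Or.inl (hre k))]
    have e : α - 1 + (k:ℂ) + 1 = (k:ℂ) + α := by ring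
    rw [e, Complex.ofReal_one, Complex.one_cpow, Complex.ofReal_zero, Complex.zero_cpow (hne k),
      sub_zero]
  have e : jenC (fun k => f k / ((k:ℂ) + α)) n (t * v) =
      ∫ u in (0:ℝ)..1, ∑ k ∈ Finset.range (n + 1),
        ((n.choose k : ℂ) * f k * (t * v) ^ k) * (u:ℂ) ^ (α - 1 + (k:ℂ)) := by
    rw [intervalIntegral.integral_finset_sum]
    · simp only [jenC]
      refine Finset.sum_congr rfl fun k _ => ?_
      rw [intervalIntegral.integral_const_mul, hint k]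
      ring
    · intro k _
      exact (intervalIntegral.intervalIntegrable_cpow' (hre k)).const_mul _
  rw [e]
  set K : ℝ := C * ((n:ℝ) + 1) ^ D * M ^ n with hK
  have hbd : ‖∫ u in (0:ℝ)..1, ∑ k ∈ Finset.range (n + 1),
        ((n.choose k : ℂ) * f k * (t * v) ^ k) * (u:ℂ) ^ (α - 1 + (k:ℂ))‖ ≤
      ∫ u in (0:ℝ)..1, K * u ^ (α.re - 1) := by
    refine intervalIntegral.norm_integral_le_of_norm_le zero_le_one ?_ ?_
    · refine Filter.Eventually.of_forall fun u hu => ?_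
      have hu0 : 0 < u := hu.1
      have hu0' : (u:ℂ) ≠ 0 := by exact_mod_cast hu0.ne'
      have e2 : ∑ k ∈ Finset.range (n + 1),
          ((n.choose k : ℂ) * f k * (t * v) ^ k) * (u:ℂ) ^ (α - 1 + (k:ℂ)) =
          (u:ℂ) ^ (α - 1) * jenC f n (((u * t : ℝ) : ℂ) * v) := by
        simp only [jenC, Finset.mul_sum]
        refine Finset.sum_congr rfl fun k _ => ?_
        rw [Complex.cpow_add _ _ hu0', Complex.cpow_natCast]
        push_cast
        ring
      rw [e2, norm_mul, Complex.norm_cpow_eq_rpow_re_of_pos hu0]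
      have e3 : (α - 1).re = α.re - 1 := by simp
      rw [e3, mul_comm K]
      refine mul_le_mul_of_nonneg_left ?_ (Real.rpow_nonneg hu0.le _)
      exact h n (u * t) (mul_nonneg hu0.le h0) (mul_le_one₀ hu.2 h0 ht)
    · exact (intervalIntegral.intervalIntegrable_rpow' (by linarith)).const_mul _
  refine hbd.trans ?_
  rw [intervalIntegral.integral_const_mul, integral_rpow (Or.inl (by linarith))]
  have e4 : α.re - 1 + 1 = α.re := by ring
  rw [e4, Real.one_rpow, Real.zero_rpow hα.ne', sub_zero, hK]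
  apply le_of_eq
  ring

theorem jen_bound (P : ℂ[X]) (S : Multiset ℂ) (hS : ∀ α ∈ S, 0 < α.re) (v : ℂ) (M : ℝ) (hM1 : 1 ≤ M)
    (hM : ∀ t : ℝ, 0 ≤ t → t ≤ 1 → ‖1 + t * v‖ ≤ M) :
    ∃ (C : ℝ) (D : ℕ), 0 < C ∧ ∀ (n : ℕ) (t : ℝ), 0 ≤ t → t ≤ 1 →
      ‖jenC (rv P S) n (t * v)‖ ≤ C * ((n:ℝ) + 1) ^ D * M ^ n := by
  induction S using Multiset.induction_on with
  | empty =>
    have := jen_bound_poly P v M hM1 hM
    have e : rv P 0 = fun k : ℕ => P.eval (k:ℂ) := by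
      funext k
      simp [rv]
    rw [e]
    exact this
  | cons α S ih =>
    have h1 := ih (fun β hβ => hS β (Multiset.mem_cons_of_mem hβ))
    have h2 := jen_bound_div _ α (hS α (Multiset.mem_cons_self α S)) v M hM1 h1
    have e : rv P (α ::ₘ S) = fun k : ℕ => rv P S k / ((k:ℂ) + α) := by
      funext k
      simp only [rv, Multiset.map_cons, Multiset.prod_cons]
      rw [div_mul_eq_div_div_swap]
    rw [e]
    exact h2

/-! ### part R2 -/

theorem cc_bound (D : ℕ) (s : ℝ) (hs : s < -((D:ℝ) + 1)) :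
    ∃ C : ℝ, 0 ≤ C ∧ ∀ n : ℕ, ‖cc n (s:ℂ)‖ ≤ C / ((n:ℝ) + 1) ^ (D + 2) := by
  have hrec : ∀ n : ℕ, ‖cc (n + 1) (s:ℂ)‖ = ‖cc n (s:ℂ)‖ * (|s + n| / ((n:ℝ) + 1)) := by
    intro n
    have h1 : cc (n + 1) (s:ℂ) = cc n (s:ℂ) * (((s + n : ℝ) : ℂ) / (((n:ℝ) + 1 : ℝ) : ℂ)) := by
      unfold cc
      rw [Finset.prod_range_succ, Nat.factorial_succ]
      have h2 : ((n.factorial : ℕ) : ℂ) ≠ 0 := Nat.cast_ne_zero.mpr (Nat.factorial_ne_zero n)
      have h3 : ((n : ℂ) + 1) ≠ 0 := Nat.cast_add_one_ne_zero n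
      push_cast
      field_simp
    rw [h1, norm_mul, norm_div, Complex.norm_real, Complex.norm_real, Real.norm_eq_abs,
      Real.norm_eq_abs, abs_of_pos (show (0:ℝ) < (n:ℝ) + 1 by positivity)]
  obtain ⟨N, hN⟩ := exists_nat_ge (-s)
  let b : ℕ → ℝ := fun n => ‖cc n (s:ℂ)‖ * ((n:ℝ) + 1) ^ (D + 2)
  have hb0 : ∀ n, 0 ≤ b n := fun n => by simp only [b]; positivity
  have hstep : ∀ n : ℕ, N ≤ n → b (n + 1) ≤ b n := by
    intro n hn
    have hn' : (N:ℝ) ≤ n := by exact_mod_cast hn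
    have h1 : 0 ≤ s + n := by linarith
    have hn1 : (0:ℝ) < (n:ℝ) + 1 := by positivity
    have hn2 : (0:ℝ) < (n:ℝ) + 2 := by positivity
    have h2 : |s + n| / ((n:ℝ) + 1) ≤ 1 - ((D:ℝ) + 2) / ((n:ℝ) + 2) := by
      rw [abs_of_nonneg h1, div_le_iff₀ hn1]
      have h3 : (1 - ((D:ℝ) + 2) / ((n:ℝ) + 2)) * ((n:ℝ) + 1) =
          ((n:ℝ) + 1) - ((D:ℝ) + 2) * (((n:ℝ) + 1) / ((n:ℝ) + 2)) := by ring
      rw [h3]
      have h4 : ((n:ℝ) + 1) / ((n:ℝ) + 2) ≤ 1 := by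
        rw [div_le_one hn2]; linarith
      have h5 : ((D:ℝ) + 2) * (((n:ℝ) + 1) / ((n:ℝ) + 2)) ≤ ((D:ℝ) + 2) * 1 :=
        mul_le_mul_of_nonneg_left h4 (by positivity)
      linarith
    have h6 : 1 - ((D:ℝ) + 2) / ((n:ℝ) + 2) ≤ (((n:ℝ) + 1) / ((n:ℝ) + 2)) ^ (D + 2) := by
      have h7 : (-2:ℝ) ≤ -(1 / ((n:ℝ) + 2)) := by
        have : 1 / ((n:ℝ) + 2) ≤ 1 := by
          rw [div_le_one hn2]
          have : (0:ℝ) ≤ n := Nat.cast_nonneg n
          linarith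
        linarith
      have h8 := one_add_mul_le_pow h7 (D + 2)
      have h9 : (1 + -(1 / ((n:ℝ) + 2))) = ((n:ℝ) + 1) / ((n:ℝ) + 2) := by
        field_simp
        ring
      rw [h9] at h8
      refine le_trans (le_of_eq ?_) h8
      push_cast
      ring
    have h10 : |s + n| / ((n:ℝ) + 1) * ((n:ℝ) + 2) ^ (D + 2) ≤ ((n:ℝ) + 1) ^ (D + 2) := by
      calc |s + n| / ((n:ℝ) + 1) * ((n:ℝ) + 2) ^ (D + 2)
          ≤ (((n:ℝ) + 1) / ((n:ℝ) + 2)) ^ (D + 2) * ((n:ℝ) + 2) ^ (D + 2) :=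
            mul_le_mul_of_nonneg_right (h2.trans h6) (by positivity)
        _ = ((n:ℝ) + 1) ^ (D + 2) := by
            rw [← mul_pow, div_mul_cancel₀ _ (ne_of_gt hn2)]
    simp only [b]
    rw [hrec n]
    push_cast
    have h11 : (n:ℝ) + 1 + 1 = (n:ℝ) + 2 := by ring
    rw [h11, mul_assoc]
    exact mul_le_mul_of_nonneg_left h10 (norm_nonneg _)
  have hC : ∀ n, b n ≤ ∑ i ∈ Finset.range (N + 1), b i := by
    intro n
    rcases le_or_gt n N with h | h
    · exact Finset.single_le_sum (f := b) (fun i _ => hb0 i) (Finset.mem_range.mpr (by omega))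
    · have h1 : b n ≤ b N := by
        induction n, h.le using Nat.le_induction with
        | base => exact le_rfl
        | succ m hm ih =>
          rcases hm.eq_or_lt with h2 | h2
          · rw [← h2]; exact hstep N le_rfl
          · exact (hstep m hm).trans (ih h2)
      exact h1.trans (Finset.single_le_sum (f := b) (fun i _ => hb0 i)
        (Finset.mem_range.mpr (by omega)))
  refine ⟨∑ i ∈ Finset.range (N + 1), b i, Finset.sum_nonneg (fun i _ => hb0 i), fun n => ?_⟩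
  rw [le_div_iff₀ (by positivity)]
  exact hC n


theorem asc_prod (s : ℂ) (n : ℕ) :
    (ascPochhammer ℂ n).eval s = ∏ j ∈ Finset.range n, (s + j) := by
  induction n with
  | zero => simp
  | succ n ih => rw [ascPochhammer_succ_eval, ih, Finset.prod_range_succ]

theorem choose_cc (s : ℂ) (n : ℕ) : Ring.choose (s + n - 1) n = cc n s := by
  have h1 : Ring.choose (s + n - 1) n = Ring.multichoose s n := by
    unfold Ring.choose
    congr 1
    ring
  have h2 := Ring.factorial_nsmul_multichoose_eq_ascPochhammer s n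
  rw [Polynomial.ascPochhammer_smeval_eq_eval, asc_prod, nsmul_eq_mul] at h2
  rw [h1, cc, ← h2]
  have : (n.factorial : ℂ) ≠ 0 := by exact_mod_cast n.factorial_ne_zero
  field_simp

theorem base_one (s : ℂ) (x : ℝ) (hx : 0 < x) (hx' : x ≤ 1 / 2) :
    HasSum (fun n : ℕ => cc n s * (1 - (x:ℂ)) ^ n) ((x:ℂ) ^ (-s)) := by
  have h := Complex.one_div_one_sub_cpow_hasFPowerSeriesOnBall_zero s
  have hn : ‖(1 - (x:ℂ))‖ < 1 := by
    have : (1 - (x:ℂ)) = ((1 - x : ℝ) : ℂ) := by push_cast; ring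
    rw [this, Complex.norm_real, Real.norm_eq_abs, abs_of_pos (by linarith)]
    linarith
  have hs := h.hasSum (y := 1 - (x:ℂ)) (by
    simp only [Metric.mem_eball, edist_zero_right]
    rw [← ofReal_norm]
    exact_mod_cast (ENNReal.ofReal_lt_one).2 hn)
  have e1 : 1 / (1 - (0 + (1 - (x:ℂ)))) ^ s = (x:ℂ) ^ (-s) := by
    rw [zero_add, sub_sub_cancel, Complex.cpow_neg, one_div]
  rw [e1] at hs
  have e2 : (fun n : ℕ => cc n s * (1 - (x:ℂ)) ^ n) = fun n =>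
      (FormalMultilinearSeries.ofScalars ℂ (fun n : ℕ => Ring.choose (s + n - 1) n) n) fun _ => 1 - (x:ℂ) := by
    funext n
    rw [FormalMultilinearSeries.ofScalars_apply_eq, choose_cc, smul_eq_mul]
  rw [e2]
  exact hs


theorem bp_const (a : ℂ) (n : ℕ) (y : ℂ) : jenC (fun _ => a) n y = a * (1 + y) ^ n := by
  unfold jenC
  rw [add_comm 1 y, add_pow, Finset.mul_sum]
  refine Finset.sum_congr rfl fun k _ => ?_
  rw [one_pow]
  ring

theorem bp_add (f g : ℕ → ℂ) (n : ℕ) (y : ℂ) :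
    jenC (fun k => f k + g k) n y = jenC f n y + jenC g n y := by
  unfold jenC
  rw [← Finset.sum_add_distrib]
  refine Finset.sum_congr rfl fun k _ => ?_
  ring

theorem bp_mulX (f : ℕ → ℂ) (m : ℕ) (y : ℂ) :
    jenC (fun k => (k : ℂ) * f k) (m + 1) y = ((m : ℂ) + 1) * y * jenC (fun k => f (k + 1)) m y := by
  unfold jenC
  rw [Finset.sum_range_succ', Finset.mul_sum]
  have h0 : (((m + 1).choose 0 : ℕ) : ℂ) * (((0 : ℕ) : ℂ) * f 0) * y ^ 0 = 0 := by simp
  rw [h0, add_zero]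
  refine Finset.sum_congr rfl fun k _ => ?_
  have h1 : ((m : ℂ) + 1) * (m.choose k : ℂ) = ((m + 1).choose (k + 1) : ℂ) * ((k : ℂ) + 1) := by
    exact_mod_cast Nat.add_one_mul_choose_eq m k
  push_cast
  rw [pow_succ]
  linear_combination (-(f (k + 1)) * y ^ k * y) * h1

theorem bp_cc (m : ℕ) (s : ℂ) : cc (m + 1) s * ((m : ℂ) + 1) = s * cc m (s + 1) := by
  unfold cc
  rw [Finset.prod_range_succ', Nat.factorial_succ]
  have hm : ((m : ℂ) + 1) ≠ 0 := by exact_mod_cast Nat.succ_ne_zero m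
  have hf : (m.factorial : ℂ) ≠ 0 := by exact_mod_cast Nat.factorial_ne_zero m
  have h1 : ∏ k ∈ Finset.range m, (s + ((k + 1 : ℕ) : ℂ)) = ∏ k ∈ Finset.range m, (s + 1 + (k : ℂ)) := by
    refine Finset.prod_congr rfl fun k _ => ?_
    push_cast
    ring
  rw [h1]
  push_cast
  field_simp
  ring

theorem bp_aux (x : ℝ) (hx : 0 < x) (hx' : x ≤ 1 / 2) : ∀ (N : ℕ) (P : ℂ[X]), P.natDegree ≤ N → ∀ s : ℂ,
    HasSum (fun n : ℕ => cc n s * jenC (fun k => P.eval (k:ℂ)) n (-(x:ℂ)))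
      ((x:ℂ) ^ (-s) * P.eval (-s)) := by
  have hconst : ∀ (a s : ℂ), HasSum (fun n : ℕ => cc n s * jenC (fun _ => a) n (-(x:ℂ)))
      ((x:ℂ) ^ (-s) * a) := by
    intro a s
    have h1 := (base_one s x hx hx').mul_left a
    rw [mul_comm a] at h1
    refine h1.congr_fun ?_
    intro n
    rw [bp_const]
    ring
  intro N
  induction N with
  | zero =>
    intro P hP s
    have h1 := Polynomial.eq_C_of_natDegree_le_zero hP
    rw [h1]
    simp only [Polynomial.eval_C]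
    exact hconst _ s
  | succ N ih =>
    intro P hP s
    have hQd : ((divX P).comp (X + C 1)).natDegree ≤ N := by
      rw [Polynomial.natDegree_comp, Polynomial.natDegree_X_add_C, mul_one,
        Polynomial.natDegree_divX_eq_natDegree_tsub_one]
      omega
    have h2 := ih _ hQd (s + 1)
    have hdec : ∀ z : ℂ, P.eval z = P.coeff 0 + z * (divX P).eval z := by
      intro z
      conv_lhs => rw [← Polynomial.divX_mul_X_add P]
      rw [Polynomial.eval_add, Polynomial.eval_mul, Polynomial.eval_X, Polynomial.eval_C]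
      ring
    have h3 : HasSum (fun n : ℕ => cc n s * jenC (fun k => (k : ℂ) * (divX P).eval (k : ℂ)) n (-(x:ℂ)))
        ((x:ℂ) ^ (-s) * (-s * (divX P).eval (-s))) := by
      have h4 := h2.mul_left (s * (-(x : ℂ)))
      have hx0 : (x : ℂ) ≠ 0 := by exact_mod_cast hx.ne'
      have h5 : (x : ℂ) ^ (-s) = (x : ℂ) ^ (-(s + 1)) * (x : ℂ) := by
        rw [show -s = -(s + 1) + 1 by ring, Complex.cpow_add _ _ hx0, Complex.cpow_one]
      have h6 : s * (-(x : ℂ)) * ((x : ℂ) ^ (-(s + 1)) * ((divX P).comp (X + C 1)).eval (-(s + 1))) =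
          (x:ℂ) ^ (-s) * (-s * (divX P).eval (-s)) := by
        rw [h5, Polynomial.eval_comp, Polynomial.eval_add, Polynomial.eval_X, Polynomial.eval_C,
          show -(s + 1) + 1 = -s by ring]
        ring
      rw [h6] at h4
      have h7 := (hasSum_nat_add_iff (f := fun n : ℕ => cc n s *
        jenC (fun k => (k : ℂ) * (divX P).eval (k : ℂ)) n (-(x:ℂ))) 1
        (g := (x:ℂ) ^ (-s) * (-s * (divX P).eval (-s)))).1
      have h8 : ∑ i ∈ Finset.range 1, cc i s *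
          jenC (fun k => (k : ℂ) * (divX P).eval (k : ℂ)) i (-(x:ℂ)) = 0 := by
        simp [jenC]
      rw [h8, add_zero] at h7
      apply h7
      refine h4.congr_fun ?_
      intro m
      rw [bp_mulX]
      have h9 : (fun k : ℕ => ((divX P).comp (X + C 1)).eval (k : ℂ)) =
          fun k : ℕ => (divX P).eval ((k + 1 : ℕ) : ℂ) := by
        funext k
        rw [Polynomial.eval_comp, Polynomial.eval_add, Polynomial.eval_X, Polynomial.eval_C]
        push_cast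
        rfl
      rw [h9]
      have h10 := bp_cc m s
      linear_combination (-(x : ℂ) * jenC (fun k : ℕ => (divX P).eval ((k + 1 : ℕ) : ℂ)) m (-(x:ℂ))) * h10
    have h11 := (hconst (P.coeff 0) s).add h3
    have h12 : (x:ℂ) ^ (-s) * P.eval (-s) =
        (x:ℂ) ^ (-s) * P.coeff 0 + (x:ℂ) ^ (-s) * (-s * (divX P).eval (-s)) := by
      rw [hdec]
      ring
    rw [h12]
    refine h11.congr_fun ?_
    intro n
    have h13 : (fun k : ℕ => P.eval (k : ℂ)) =
        fun k : ℕ => P.coeff 0 + (k : ℂ) * (divX P).eval (k : ℂ) := by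
      funext k
      exact hdec _
    rw [h13, bp_add (fun _ => P.coeff 0) (fun k => (k : ℂ) * (divX P).eval (k : ℂ))]
    ring

/-- TARGET -/
theorem base_poly (P : ℂ[X]) (s : ℂ) (x : ℝ) (hx : 0 < x) (hx' : x ≤ 1 / 2) :
    HasSum (fun n : ℕ => cc n s * jenC (fun k => P.eval (k:ℂ)) n (-(x:ℂ)))
      ((x:ℂ) ^ (-s) * P.eval (-s)) := by
  exact bp_aux x hx hx' P.natDegree P le_rfl s


theorem step_int (f : ℕ → ℂ) (α : ℂ) (hα : 0 < α.re) (n : ℕ) (y : ℂ) :
    jenC (fun k => f k / ((k:ℂ) + α)) n y =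
      ∫ u in (0:ℝ)..1, (u:ℂ) ^ (α - 1) * jenC f n ((u:ℂ) * y) := by
  have hre : ∀ k : ℕ, -1 < (α - 1 + (k:ℂ)).re := by
    intro k
    have h : (α - 1 + (k:ℂ)).re = α.re - 1 + k := by simp
    rw [h]
    have : (0:ℝ) ≤ k := Nat.cast_nonneg k
    linarith
  have hne : ∀ k : ℕ, α - 1 + (k:ℂ) + 1 ≠ 0 := by
    intro k h
    have h2 := congrArg Complex.re h
    have h3 := hre k
    rw [Complex.add_re, Complex.one_re, Complex.zero_re] at h2
    linarith
  have h0 : ∀ (k : ℕ) (u : ℝ), (u:ℂ) ^ (α - 1) * (u:ℂ) ^ k = (u:ℂ) ^ (α - 1 + (k:ℂ)) := by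
    intro k u
    by_cases hu : (u:ℂ) = 0
    · rcases Nat.eq_zero_or_pos k with hk | hk
      · subst hk; simp
      · rw [hu, zero_pow (by omega), mul_zero, Complex.zero_cpow]
        intro h
        have h2 := congrArg Complex.re h
        have h3 : (α - 1 + (k:ℂ)).re = α.re - 1 + k := by simp
        rw [h3, Complex.zero_re] at h2
        have h4 : (1:ℝ) ≤ k := by exact_mod_cast hk
        linarith
    · rw [Complex.cpow_add _ _ hu, Complex.cpow_natCast]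
  have h1 : ∀ u : ℝ, (u:ℂ) ^ (α - 1) * jenC f n ((u:ℂ) * y) =
      ∑ k ∈ Finset.range (n + 1), ((n.choose k : ℂ) * f k * y ^ k) * (u:ℂ) ^ (α - 1 + (k:ℂ)) := by
    intro u
    unfold jenC
    rw [Finset.mul_sum]
    apply Finset.sum_congr rfl
    intro k _
    rw [← h0 k u, mul_pow]
    ring
  simp only [h1]
  rw [intervalIntegral.integral_finset_sum]
  · unfold jenC
    apply Finset.sum_congr rfl
    intro k _
    rw [intervalIntegral.integral_const_mul, integral_cpow (Or.inl (hre k)), Complex.ofReal_one,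
      Complex.one_cpow, Complex.ofReal_zero, Complex.zero_cpow (hne k), sub_zero]
    have h2 : α - 1 + (k:ℂ) + 1 = (k:ℂ) + α := by ring
    rw [h2]
    ring
  · intro k _
    exact (intervalIntegral.intervalIntegrable_cpow' (hre k)).const_mul _


theorem pb_aux : ∀ (N : ℕ) (P : ℂ[X]), P.natDegree ≤ N →
    ∃ (C : ℝ) (D : ℕ), 0 ≤ C ∧ ∀ (n : ℕ) (v : ℝ), 0 ≤ v → v ≤ 1 / 2 →
      ‖jenC (fun k => P.eval (k:ℂ)) n (-(v:ℂ))‖ ≤ C * ((n:ℝ) + 1) ^ D := by
  have hconst : ∀ (a : ℂ) (n : ℕ) (v : ℝ), 0 ≤ v → v ≤ 1 / 2 →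
      ‖jenC (fun _ => a) n (-(v:ℂ))‖ ≤ ‖a‖ := by
    intro a n v hv hv'
    rw [bp_const, norm_mul, norm_pow]
    have h1 : ‖(1:ℂ) + -(v:ℂ)‖ ≤ 1 := by
      have : (1:ℂ) + -(v:ℂ) = ((1 - v : ℝ) : ℂ) := by push_cast; ring
      rw [this, Complex.norm_real, Real.norm_eq_abs, abs_of_nonneg (by linarith)]
      linarith
    have h2 : ‖(1:ℂ) + -(v:ℂ)‖ ^ n ≤ 1 := pow_le_one₀ (norm_nonneg _) h1
    nlinarith [norm_nonneg a]
  intro N
  induction N with
  | zero =>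
    intro P hP
    have h1 := Polynomial.eq_C_of_natDegree_le_zero hP
    rw [h1]
    simp only [Polynomial.eval_C]
    refine ⟨‖P.coeff 0‖, 0, norm_nonneg _, fun n v hv hv' => ?_⟩
    rw [pow_zero, mul_one]
    exact hconst _ n v hv hv'
  | succ N ih =>
    intro P hP
    have hQd : ((divX P).comp (X + C 1)).natDegree ≤ N := by
      rw [Polynomial.natDegree_comp, Polynomial.natDegree_X_add_C, mul_one,
        Polynomial.natDegree_divX_eq_natDegree_tsub_one]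
      omega
    obtain ⟨C, D, hC, hb⟩ := ih _ hQd
    have hdec : ∀ z : ℂ, P.eval z = P.coeff 0 + z * (divX P).eval z := by
      intro z
      conv_lhs => rw [← Polynomial.divX_mul_X_add P]
      rw [Polynomial.eval_add, Polynomial.eval_mul, Polynomial.eval_X, Polynomial.eval_C]
      ring
    have h13 : (fun k : ℕ => P.eval (k : ℂ)) =
        fun k : ℕ => P.coeff 0 + (k : ℂ) * (divX P).eval (k : ℂ) := by
      funext k
      exact hdec _
    refine ⟨‖P.coeff 0‖ + C, D + 1, add_nonneg (norm_nonneg _) hC, fun n v hv hv' => ?_⟩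
    rw [h13, bp_add (fun _ => P.coeff 0) (fun k => (k : ℂ) * (divX P).eval (k : ℂ))]
    refine (norm_add_le _ _).trans ?_
    have hc := hconst (P.coeff 0) n v hv hv'
    have hone : 1 ≤ ((n:ℝ) + 1) ^ (D + 1) := one_le_pow₀ (by
      have : (0:ℝ) ≤ n := Nat.cast_nonneg n
      linarith)
    have hrest : ‖jenC (fun k => (k : ℂ) * (divX P).eval (k : ℂ)) n (-(v:ℂ))‖ ≤
        C * ((n:ℝ) + 1) ^ (D + 1) := by
      cases n with
      | zero =>
        have : jenC (fun k => (k : ℂ) * (divX P).eval (k : ℂ)) 0 (-(v:ℂ)) = 0 := by simp [jenC]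
        rw [this, norm_zero]
        positivity
      | succ m =>
        rw [bp_mulX]
        have h9 : (fun k : ℕ => ((divX P).comp (X + Polynomial.C 1)).eval (k : ℂ)) =
            fun k : ℕ => (divX P).eval ((k + 1 : ℕ) : ℂ) := by
          funext k
          rw [Polynomial.eval_comp, Polynomial.eval_add, Polynomial.eval_X, Polynomial.eval_C]
          push_cast
          rfl
        have h10 := hb m v hv hv'
        rw [h9] at h10
        have h11 : ‖((m : ℂ) + 1) * -(v:ℂ)‖ ≤ (m : ℝ) + 1 := by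
          have : ((m : ℂ) + 1) * -(v:ℂ) = ((-(((m:ℝ) + 1) * v) : ℝ) : ℂ) := by push_cast; ring
          rw [this, Complex.norm_real, Real.norm_eq_abs, abs_neg, abs_of_nonneg (by positivity)]
          nlinarith [(Nat.cast_nonneg m : (0:ℝ) ≤ m)]
        rw [norm_mul]
        calc _ ≤ ((m : ℝ) + 1) * (C * ((m:ℝ) + 1) ^ D) :=
              mul_le_mul h11 h10 (norm_nonneg _) (by positivity)
          _ = C * ((m:ℝ) + 1) ^ (D + 1) := by ring
          _ ≤ C * (((m + 1 : ℕ) : ℝ) + 1) ^ (D + 1) := by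
              apply mul_le_mul_of_nonneg_left _ hC
              apply pow_le_pow_left₀ (by positivity)
              push_cast
              linarith
    nlinarith [norm_nonneg (P.coeff 0)]

theorem poly_bound (P : ℂ[X]) :
    ∃ (C : ℝ) (D : ℕ), 0 ≤ C ∧ ∀ (n : ℕ) (v : ℝ), 0 ≤ v → v ≤ 1 / 2 →
      ‖jenC (fun k => P.eval (k:ℂ)) n (-(v:ℂ))‖ ≤ C * ((n:ℝ) + 1) ^ D :=
  pb_aux P.natDegree P le_rfl


theorem rv_zero (P : ℂ[X]) : rv P 0 = fun k : ℕ => P.eval (k:ℂ) := by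
  funext k
  simp [rv]

theorem rv_cons (P : ℂ[X]) (α : ℂ) (S : Multiset ℂ) :
    rv P (α ::ₘ S) = fun k : ℕ => rv P S k / ((k:ℂ) + α) := by
  funext k
  simp only [rv, Multiset.map_cons, Multiset.prod_cons]
  rw [div_div, mul_comm]

theorem rat_bound (P : ℂ[X]) (S : Multiset ℂ) (hS : ∀ α ∈ S, 0 < α.re) :
    ∃ (C : ℝ) (D : ℕ), 0 ≤ C ∧ ∀ (n : ℕ) (v : ℝ), 0 ≤ v → v ≤ 1 / 2 →
      ‖jenC (rv P S) n (-(v:ℂ))‖ ≤ C * ((n:ℝ) + 1) ^ D := by
  induction S using Multiset.induction_on with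
  | empty => rw [rv_zero]; exact poly_bound P
  | cons α S ih =>
    obtain ⟨C, D, hC, h⟩ := ih (fun β hβ => hS β (Multiset.mem_cons_of_mem hβ))
    have hα : 0 < α.re := hS α (Multiset.mem_cons_self α S)
    refine ⟨C / α.re, D, by positivity, fun n v hv hv' => ?_⟩
    rw [rv_cons, step_int _ α hα]
    have h1 : ‖∫ u in (0:ℝ)..1, (u:ℂ) ^ (α - 1) * jenC (rv P S) n ((u:ℂ) * -(v:ℂ))‖ ≤
        ∫ u in (0:ℝ)..1, u ^ (α.re - 1) * (C * ((n:ℝ) + 1) ^ D) := by
      apply intervalIntegral.norm_integral_le_of_norm_le zero_le_one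
      · refine Filter.Eventually.of_forall fun u hu => ?_
        rw [norm_mul, Complex.norm_cpow_eq_rpow_re_of_pos hu.1]
        have e1 : (u:ℂ) * -(v:ℂ) = -((u * v : ℝ) : ℂ) := by push_cast; ring
        rw [e1]
        simp only [Complex.sub_re, Complex.one_re]
        exact mul_le_mul_of_nonneg_left (h n (u * v) (mul_nonneg hu.1.le hv)
          (by nlinarith [hu.1, hu.2])) (Real.rpow_nonneg hu.1.le _)
      · exact (intervalIntegral.intervalIntegrable_rpow' (by linarith)).mul_const _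
    refine h1.trans (le_of_eq ?_)
    rw [intervalIntegral.integral_mul_const, integral_rpow (Or.inl (by linarith))]
    have : α.re ≠ 0 := hα.ne'
    simp only [sub_add_cancel, Real.one_rpow]
    rw [Real.zero_rpow this]
    field_simp
    ring

theorem jen_identity (P : ℂ[X]) (S : Multiset ℂ) (hS : ∀ α ∈ S, 0 < α.re) :
    ∃ s0 : ℝ, ∀ s : ℝ, s < s0 → ∀ x : ℝ, 0 < x → x ≤ 1 / 2 →
      HasSum (fun n : ℕ => cc n (s:ℂ) * jenC (rv P S) n (-(x:ℂ)))
        ((x:ℂ) ^ (-(s:ℂ)) * (P.eval (-(s:ℂ)) / (S.map (fun α => α - (s:ℂ))).prod)) := by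
  induction S using Multiset.induction_on with
  | empty =>
    refine ⟨0, fun s _ x hx hx' => ?_⟩
    rw [rv_zero]
    simpa using base_poly P (s:ℂ) x hx hx'
  | cons α S ih =>
    have hS' : ∀ β ∈ S, 0 < β.re := fun β hβ => hS β (Multiset.mem_cons_of_mem hβ)
    obtain ⟨s0, h0⟩ := ih hS'
    have hα : 0 < α.re := hS α (Multiset.mem_cons_self α S)
    obtain ⟨C, D, hC, hb⟩ := rat_bound P S hS'
    refine ⟨min s0 (-((D:ℝ) + 1)), fun s hs x hx hx' => ?_⟩
    have hs1 : s < s0 := lt_of_lt_of_le hs (min_le_left _ _)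
    have hs2 : s < -((D:ℝ) + 1) := lt_of_lt_of_le hs (min_le_right _ _)
    obtain ⟨C', hC', hcc⟩ := cc_bound D s hs2
    have hs3 : s < 0 := by
      have : (0:ℝ) ≤ D := Nat.cast_nonneg D
      linarith
    obtain ⟨c, hc⟩ : ∃ c : ℂ, c = P.eval (-(s:ℂ)) / (S.map (fun α => α - (s:ℂ))).prod := ⟨_, rfl⟩
    have hαs : α - (s:ℂ) ≠ 0 := by
      intro h
      have := congrArg Complex.re h
      simp at this
      linarith
    have main : HasSum (fun n : ℕ => ∫ u in (0:ℝ)..1,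
        cc n (s:ℂ) * ((u:ℂ) ^ (α - 1) * jenC (rv P S) n ((u:ℂ) * -(x:ℂ))))
        (∫ u in (0:ℝ)..1, (u:ℂ) ^ (α - 1) * (((u * x : ℝ):ℂ) ^ (-(s:ℂ)) * c)) := by
      apply intervalIntegral.hasSum_integral_of_dominated_convergence
        (bound := fun (n : ℕ) (t : ℝ) => (C' * C / ((n:ℝ) + 1) ^ 2) * t ^ (α.re - 1))
      · intro n
        apply Measurable.aestronglyMeasurable
        unfold jenC
        fun_prop
      · intro n
        refine Filter.Eventually.of_forall fun u hu => ?_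
        rw [uIoc_of_le zero_le_one] at hu
        rw [norm_mul, norm_mul, Complex.norm_cpow_eq_rpow_re_of_pos hu.1]
        have e1 : (u:ℂ) * -(x:ℂ) = -((u * x : ℝ) : ℂ) := by push_cast; ring
        rw [e1]
        simp only [Complex.sub_re, Complex.one_re]
        have b1 := hcc n
        have b2 := hb n (u * x) (mul_nonneg hu.1.le hx.le) (by nlinarith [hu.1, hu.2])
        have b3 : 0 ≤ u ^ (α.re - 1) := Real.rpow_nonneg hu.1.le _
        calc ‖cc n (s:ℂ)‖ * (u ^ (α.re - 1) * ‖jenC (rv P S) n (-((u * x : ℝ) : ℂ))‖)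
            ≤ (C' / ((n:ℝ) + 1) ^ (D + 2)) * (u ^ (α.re - 1) * (C * ((n:ℝ) + 1) ^ D)) := by
              apply mul_le_mul b1 (mul_le_mul_of_nonneg_left b2 b3) (by positivity) (by positivity)
          _ = (C' * C / ((n:ℝ) + 1) ^ 2) * u ^ (α.re - 1) := by
              rw [pow_add]
              field_simp
      · refine Filter.Eventually.of_forall fun u hu => ?_
        apply Summable.mul_right
        have h2 : Summable (fun n : ℕ => (1:ℝ) / ((n:ℝ) + 1) ^ 2) := by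
          have := (summable_nat_add_iff 1).2 (Real.summable_one_div_nat_pow.2 (show 1 < 2 by norm_num))
          simpa using this
        have := h2.mul_left (C' * C)
        refine this.congr fun n => ?_
        ring
      · have : (fun t : ℝ => ∑' n : ℕ, (C' * C / ((n:ℝ) + 1) ^ 2) * t ^ (α.re - 1)) =
            fun t : ℝ => (∑' n : ℕ, (C' * C / ((n:ℝ) + 1) ^ 2)) * t ^ (α.re - 1) := by
          funext t
          rw [tsum_mul_right]
        rw [this]
        exact (intervalIntegral.intervalIntegrable_rpow' (by linarith)).const_mul _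
      · refine Filter.Eventually.of_forall fun u hu => ?_
        rw [uIoc_of_le zero_le_one] at hu
        have hh := (h0 s hs1 (u * x) (mul_pos hu.1 hx) (by nlinarith [hu.1, hu.2])).mul_left
          ((u:ℂ) ^ (α - 1))
        rw [← hc] at hh
        have hfun : (fun n : ℕ => cc n (s:ℂ) * ((u:ℂ) ^ (α - 1) *
            jenC (rv P S) n ((u:ℂ) * -(x:ℂ)))) = fun n : ℕ => (u:ℂ) ^ (α - 1) *
            (cc n (s:ℂ) * jenC (rv P S) n (-((u * x : ℝ) : ℂ))) := by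
          funext n
          have e1 : (u:ℂ) * -(x:ℂ) = -((u * x : ℝ) : ℂ) := by push_cast; ring
          rw [e1]
          ring
        rw [hfun]
        exact hh
    have hint : ∫ u in (0:ℝ)..1, (u:ℂ) ^ (α - 1) * (((u * x : ℝ):ℂ) ^ (-(s:ℂ)) * c) =
        (x:ℂ) ^ (-(s:ℂ)) * (c / (α - (s:ℂ))) := by
      have e : ∫ u in (0:ℝ)..1, (u:ℂ) ^ (α - 1) * (((u * x : ℝ):ℂ) ^ (-(s:ℂ)) * c) =
          ∫ u in (0:ℝ)..1, (u:ℂ) ^ (α - (s:ℂ) - 1) * ((x:ℂ) ^ (-(s:ℂ)) * c) := by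
        apply intervalIntegral.integral_congr_ae
        refine Filter.Eventually.of_forall fun u hu => ?_
        rw [uIoc_of_le zero_le_one] at hu
        have hu0 : (u:ℂ) ≠ 0 := by exact_mod_cast hu.1.ne'
        rw [Complex.ofReal_mul, Complex.mul_cpow_ofReal_nonneg hu.1.le hx.le,
          show α - (s:ℂ) - 1 = (α - 1) + (-(s:ℂ)) by ring, Complex.cpow_add _ _ hu0]
        ring
      rw [e, intervalIntegral.integral_mul_const, integral_cpow]
      · rw [sub_add_cancel]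
        simp only [Complex.ofReal_one, Complex.one_cpow, Complex.ofReal_zero]
        rw [Complex.zero_cpow hαs]
        field_simp
        ring
      · left
        simp
        linarith
    rw [hint] at main
    rw [rv_cons, Multiset.map_cons, Multiset.prod_cons]
    have e2 : P.eval (-(s:ℂ)) / ((α - (s:ℂ)) * (S.map (fun α => α - (s:ℂ))).prod) =
        c / (α - (s:ℂ)) := by
      rw [hc, div_div, mul_comm]
    rw [e2]
    convert main using 1
    funext n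
    rw [intervalIntegral.integral_const_mul, step_int _ α hα]

/-! ### part R3 -/

theorem cc_entire (h : ℕ → ℂ) (C ρ : ℝ) (hρ0 : 0 < ρ) (hρ : ρ < 1) (hh : ∀ n, ‖h n‖ ≤ C * ρ ^ n) :
    Differentiable ℂ (fun s : ℂ => ∑' n : ℕ, cc n s * h n) ∧ ∀ s : ℂ, Summable (fun n : ℕ => cc n s * h n) := by
  have hcc : ∀ (k n : ℕ) (s : ℂ), ‖s‖ ≤ k + 1 → ‖cc n s‖ ≤ ((n + k).choose k : ℝ) := by
    intro k n s hs
    unfold cc
    rw [norm_div, norm_prod, Complex.norm_natCast]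
    have h1 : ∏ j ∈ Finset.range n, ‖s + (j : ℂ)‖ ≤ ∏ j ∈ Finset.range n, ((k : ℝ) + 1 + j) := by
      apply Finset.prod_le_prod
      · intro j _; exact norm_nonneg _
      · intro j _
        calc ‖s + (j : ℂ)‖ ≤ ‖s‖ + ‖(j : ℂ)‖ := norm_add_le _ _
          _ ≤ (k : ℝ) + 1 + j := by rw [Complex.norm_natCast]; linarith
    have h2 : ∏ j ∈ Finset.range n, ((k : ℝ) + 1 + j) = (n.factorial : ℝ) * ((n + k).choose k : ℝ) := by
      have h3 := Nat.ascFactorial_eq_prod_range (k + 1) n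
      have h4 := Nat.ascFactorial_eq_factorial_mul_choose k n
      rw [h3] at h4
      have h5 : (k + n).choose n = (n + k).choose k := by
        rw [add_comm k n]
        exact Nat.choose_symm_add
      rw [h5] at h4
      exact_mod_cast h4
    rw [h2] at h1
    rw [div_le_iff₀ (by positivity)]
    linarith [mul_comm (n.factorial : ℝ) ((n + k).choose k : ℝ)]
  have hsum : ∀ k : ℕ, Summable (fun n : ℕ => ((n + k).choose k : ℝ) * (C * ρ ^ n)) := by
    intro k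
    have h1 : ‖ρ‖ < 1 := by rw [Real.norm_eq_abs, abs_of_pos hρ0]; exact hρ
    have h2 := (summable_choose_mul_geometric_of_norm_lt_one k h1).mul_left C
    refine h2.congr fun n => ?_
    ring
  have hb : ∀ (k n : ℕ) (s : ℂ), ‖s‖ ≤ k + 1 → ‖cc n s * h n‖ ≤ ((n + k).choose k : ℝ) * (C * ρ ^ n) := by
    intro k n s hs
    rw [norm_mul]
    exact mul_le_mul (hcc k n s hs) (hh n) (norm_nonneg _) (by positivity)
  constructor
  · intro s
    obtain ⟨k, hk⟩ := exists_nat_gt ‖s‖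
    have hd : DifferentiableOn ℂ (fun s : ℂ => ∑' n : ℕ, cc n s * h n) (Metric.ball 0 (k + 1)) := by
      apply Complex.differentiableOn_tsum_of_summable_norm (hsum k)
      · intro n
        apply Differentiable.differentiableOn
        unfold cc
        fun_prop
      · exact Metric.isOpen_ball
      · intro n w hw
        rw [mem_ball_zero_iff] at hw
        exact hb k n w hw.le
    apply hd.differentiableAt
    apply Metric.isOpen_ball.mem_nhds
    rw [mem_ball_zero_iff]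
    linarith
  · intro s
    obtain ⟨k, hk⟩ := exists_nat_gt ‖s‖
    exact Summable.of_norm_bounded (hsum k) (fun n => hb k n s (by linarith))

/-! ### part R4 -/

theorem pole_cancel (P : ℂ[X]) (S : Multiset ℂ) (hS : ∀ α ∈ S, 0 < α.re)
    (ident : ∃ s0 : ℝ, ∀ s : ℝ, s < s0 → ∀ x : ℝ, 0 < x → x ≤ 1 / 2 →
      HasSum (fun n : ℕ => cc n (s:ℂ) * jenC (rv P S) n (-(x:ℂ)))
        ((x:ℂ) ^ (-(s:ℂ)) * (P.eval (-(s:ℂ)) / (S.map (fun α => α - (s:ℂ))).prod)))
    (entire : ∀ (h : ℕ → ℂ) (C ρ : ℝ), 0 < ρ → ρ < 1 → (∀ n, ‖h n‖ ≤ C * ρ ^ n) →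
      Differentiable ℂ (fun s : ℂ => ∑' n : ℕ, cc n s * h n))
    (C ρ : ℝ) (hρ0 : 0 < ρ) (hρ : ρ < 1) (hsmall : ∀ n, ‖jenC (rv P S) n (-(1/2:ℂ))‖ ≤ C * ρ ^ n) :
    ∀ α ∈ S, P.eval (-α) = 0 := by
  obtain ⟨s0, hid⟩ := ident
  have hG := entire (fun n => jenC (rv P S) n (-(1/2:ℂ))) C ρ hρ0 hρ hsmall
  set G : ℂ → ℂ := fun s : ℂ => ∑' n : ℕ, cc n s * jenC (rv P S) n (-(1/2:ℂ)) with hGdef
  have h2 : (1/2:ℂ) ≠ 0 := by norm_num
  let Q : ℂ[X] := (S.map (fun α => Polynomial.C α - Polynomial.X)).prod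
  have hQ : ∀ s : ℂ, Q.eval s = (S.map (fun α => α - s)).prod := by
    intro s
    simp only [Q]
    rw [Polynomial.eval_multiset_prod, Multiset.map_map]
    congr 1
    apply Multiset.map_congr rfl
    intro α _
    simp
  let F : ℂ → ℂ := fun s => Q.eval s * (1/2:ℂ) ^ s * G s - P.eval (-s)
  have hFd : Differentiable ℂ F := by
    have hc : Differentiable ℂ (fun s : ℂ => (1/2:ℂ) ^ s) :=
      fun s => differentiableAt_id.const_cpow (Or.inl h2)
    have hp : Differentiable ℂ (fun s : ℂ => P.eval (-s)) :=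
      P.differentiable.comp differentiable_neg
    exact ((Q.differentiable.mul hc).mul hG).sub hp
  have hF0 : ∀ s : ℝ, s < s0 → s < 0 → F (s : ℂ) = 0 := by
    intro s hs hs'
    have h1 := hid s hs (1/2) (by norm_num) le_rfl
    have h3 : G (s:ℂ) = (1/2:ℂ) ^ (-(s:ℂ)) * (P.eval (-(s:ℂ)) / (S.map (fun α => α - (s:ℂ))).prod) := by
      have h4 := h1.tsum_eq
      rw [hGdef]
      simp only
      have h5 : ((1/2:ℝ):ℂ) = (1/2:ℂ) := by norm_num
      rw [h5] at h4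
      exact h4
    have hne : (S.map (fun α => α - (s:ℂ))).prod ≠ 0 := by
      apply Multiset.prod_ne_zero
      intro hmem
      rw [Multiset.mem_map] at hmem
      obtain ⟨α, hα, hα0⟩ := hmem
      have h6 := congrArg Complex.re hα0
      simp only [Complex.sub_re, Complex.ofReal_re, Complex.zero_re] at h6
      have := hS α hα
      linarith
    have h7 : (1/2:ℂ) ^ (s:ℂ) * (1/2:ℂ) ^ (-(s:ℂ)) = 1 := by
      rw [← Complex.cpow_add _ _ h2, add_neg_cancel, Complex.cpow_zero]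
    simp only [F]
    rw [h3, hQ]
    calc (S.map (fun α => α - (s:ℂ))).prod * (1/2:ℂ) ^ (s:ℂ) *
          ((1/2:ℂ) ^ (-(s:ℂ)) * (P.eval (-(s:ℂ)) / (S.map (fun α => α - (s:ℂ))).prod)) - P.eval (-(s:ℂ))
        = ((1/2:ℂ) ^ (s:ℂ) * (1/2:ℂ) ^ (-(s:ℂ))) *
          ((S.map (fun α => α - (s:ℂ))).prod * (P.eval (-(s:ℂ)) / (S.map (fun α => α - (s:ℂ))).prod))
            - P.eval (-(s:ℂ)) := by ring
      _ = 0 := by rw [h7, mul_div_cancel₀ _ hne]; ring
  have hFz : F = fun _ => 0 := by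
    let m : ℝ := min s0 0 - 1
    apply AnalyticOnNhd.eq_of_frequently_eq (𝕜 := ℂ) (z₀ := (m : ℂ))
    · exact fun z _ => hFd.analyticAt z
    · exact fun z _ => analyticAt_const
    · have ht : Tendsto (fun n : ℕ => ((m - 1 / ((n:ℝ) + 1) : ℝ) : ℂ)) atTop (𝓝[≠] (m:ℂ)) := by
        rw [tendsto_nhdsWithin_iff]
        constructor
        · have h8 : Tendsto (fun n : ℕ => m - 1 / ((n:ℝ) + 1)) atTop (𝓝 (m - 0)) :=
            tendsto_const_nhds.sub tendsto_one_div_add_atTop_nhds_zero_nat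
          rw [sub_zero] at h8
          exact (Complex.continuous_ofReal.tendsto m).comp h8
        · apply Eventually.of_forall
          intro n
          rw [mem_compl_iff, mem_singleton_iff]
          intro h9
          have h10 : m - 1 / ((n:ℝ) + 1) = m := Complex.ofReal_injective h9
          have h11 : (0:ℝ) < 1 / ((n:ℝ) + 1) := by positivity
          linarith
      apply ht.frequently
      apply Frequently.of_forall
      intro n
      have h11 : (0:ℝ) < 1 / ((n:ℝ) + 1) := by positivity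
      have h12 : m < min s0 0 := by simp only [m]; linarith
      apply hF0
      · have := min_le_left s0 0
        linarith
      · have := min_le_right s0 0
        linarith
  intro α hα
  have h13 : F α = 0 := by rw [hFz]
  simp only [F] at h13
  have h14 : Q.eval α = 0 := by
    rw [hQ]
    apply Multiset.prod_eq_zero
    rw [Multiset.mem_map]
    exact ⟨α, hα, sub_self α⟩
  rw [h14, zero_mul, zero_mul, zero_sub, neg_eq_zero] at h13
  exact h13

/-! ### part R5 -/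

theorem lower_pos_poly (R : ℝ[X]) (hR : R ≠ 0) : ∃ (ε c0 : ℝ) (K : ℕ), (ε = 1 ∨ ε = -1) ∧
    0 < c0 ∧ ∀ k : ℕ, K ≤ k → c0 ≤ ε * R.eval (k : ℝ) := by
  by_cases hd : R.natDegree = 0
  · rw [Polynomial.eq_C_of_natDegree_eq_zero hd] at hR ⊢
    have ha : R.coeff 0 ≠ 0 := by
      intro h0
      rw [h0, C_0] at hR
      exact hR rfl
    rcases lt_or_gt_of_ne ha with h | h
    · exact ⟨-1, -R.coeff 0, 0, Or.inr rfl, by linarith, fun k _ => by rw [eval_C]; linarith⟩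
    · exact ⟨1, R.coeff 0, 0, Or.inl rfl, h, fun k _ => by rw [eval_C]; linarith⟩
  · have hdeg : 0 < R.degree := Polynomial.natDegree_pos_iff_degree_pos.1 (Nat.pos_of_ne_zero hd)
    rcases le_total 0 R.leadingCoeff with h | h
    · have ht := (Polynomial.tendsto_atTop_of_leadingCoeff_nonneg R hdeg h).comp
        (tendsto_natCast_atTop_atTop (R := ℝ))
      obtain ⟨K, hK⟩ := Filter.eventually_atTop.1 (ht.eventually_ge_atTop 1)
      refine ⟨1, 1, K, Or.inl rfl, one_pos, fun k hk => ?_⟩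
      have := hK k hk
      simp only [Function.comp_apply] at this
      linarith
    · have ht := (Polynomial.tendsto_atBot_of_leadingCoeff_nonpos R hdeg h).comp
        (tendsto_natCast_atTop_atTop (R := ℝ))
      obtain ⟨K, hK⟩ := Filter.eventually_atTop.1 (ht.eventually_le_atBot (-1))
      refine ⟨-1, 1, K, Or.inr rfl, one_pos, fun k hk => ?_⟩
      have := hK k hk
      simp only [Function.comp_apply] at this
      linarith


theorem lower_pos_polyabs (q : ℝ[X]) : ∃ C : ℝ, 0 < C ∧ ∀ k : ℕ,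
    |q.eval (k : ℝ)| ≤ C * ((k : ℝ) + 1) ^ q.natDegree := by
  refine ⟨1 + ∑ i ∈ Finset.range (q.natDegree + 1), |q.coeff i|, ?_, fun k => ?_⟩
  · have : 0 ≤ ∑ i ∈ Finset.range (q.natDegree + 1), |q.coeff i| :=
      Finset.sum_nonneg fun _ _ => abs_nonneg _
    linarith
  · rw [eval_eq_sum_range]
    have hk : (0 : ℝ) ≤ k := Nat.cast_nonneg k
    calc |∑ i ∈ Finset.range (q.natDegree + 1), q.coeff i * (k : ℝ) ^ i|
        ≤ ∑ i ∈ Finset.range (q.natDegree + 1), |q.coeff i * (k : ℝ) ^ i| :=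
          Finset.abs_sum_le_sum_abs _ _
      _ ≤ ∑ i ∈ Finset.range (q.natDegree + 1), |q.coeff i| * ((k : ℝ) + 1) ^ q.natDegree := by
          refine Finset.sum_le_sum fun i hi => ?_
          rw [abs_mul, abs_of_nonneg (pow_nonneg hk i)]
          refine mul_le_mul_of_nonneg_left ?_ (abs_nonneg _)
          exact (pow_le_pow_left₀ hk (by linarith) i).trans
            (pow_le_pow_right₀ (by linarith) (by have := Finset.mem_range.1 hi; omega))
      _ = (∑ i ∈ Finset.range (q.natDegree + 1), |q.coeff i|) * ((k : ℝ) + 1) ^ q.natDegree := by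
          rw [Finset.sum_mul]
      _ ≤ _ := by
          refine mul_le_mul_of_nonneg_right (by linarith) (by positivity)

theorem lower_pos_choose (n K : ℕ) :
    ∑ k ∈ Finset.range (n + 1), (if k < K then (n.choose k : ℝ) * (1 / 2) ^ k else 0)
      ≤ K * ((n : ℝ) + 1) ^ K := by
  rw [← Finset.sum_filter]
  have h1 : ∀ k ∈ (Finset.range (n + 1)).filter (fun k => k < K),
      (n.choose k : ℝ) * (1 / 2) ^ k ≤ ((n : ℝ) + 1) ^ K := by
    intro k hk
    have hkK : k < K := (Finset.mem_filter.1 hk).2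
    have h2 : (n.choose k : ℝ) ≤ (n : ℝ) ^ k := by
      exact_mod_cast Nat.choose_le_pow n k
    have h3 : ((1 : ℝ) / 2) ^ k ≤ 1 := pow_le_one₀ (by norm_num) (by norm_num)
    have hn : (0 : ℝ) ≤ n := Nat.cast_nonneg n
    calc (n.choose k : ℝ) * (1 / 2) ^ k ≤ (n.choose k : ℝ) * 1 :=
          mul_le_mul_of_nonneg_left h3 (Nat.cast_nonneg _)
      _ = n.choose k := mul_one _
      _ ≤ (n : ℝ) ^ k := h2
      _ ≤ ((n : ℝ) + 1) ^ k := pow_le_pow_left₀ hn (by linarith) k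
      _ ≤ ((n : ℝ) + 1) ^ K := pow_le_pow_right₀ (by linarith) hkK.le
  have h4 := Finset.sum_le_card_nsmul _ _ _ h1
  refine h4.trans ?_
  rw [nsmul_eq_mul]
  apply mul_le_mul_of_nonneg_right _ (by positivity)
  have h5 : (Finset.range (n + 1)).filter (fun k => k < K) ⊆ Finset.range K := by
    intro k hk
    exact Finset.mem_range.2 (Finset.mem_filter.1 hk).2
  have h6 := Finset.card_le_card h5
  rw [Finset.card_range] at h6
  exact_mod_cast h6

theorem lower_pos_binom (n : ℕ) :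
    ∑ k ∈ Finset.range (n + 1), (n.choose k : ℝ) * (1 / 2) ^ k = (3 / 2) ^ n := by
  have h := add_pow (1 / 2 : ℝ) 1 n
  have e : (1 / 2 : ℝ) + 1 = 3 / 2 := by norm_num
  rw [e] at h
  rw [h]
  refine Finset.sum_congr rfl fun k _ => ?_
  rw [one_pow]
  ring

theorem lower_pos_asym (a b : ℝ) (ha : 0 < a) (m : ℕ) :
    ∃ N : ℕ, ∀ n : ℕ, N ≤ n → b * ((n : ℝ) + 1) ^ m ≤ a * (3 / 2) ^ n := by
  have h1 := tendsto_pow_const_div_const_pow_of_one_lt m (r := (3 / 2 : ℝ)) (by norm_num)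
  have h2 := h1.comp (tendsto_add_atTop_nat 1)
  have h3 : (0 : ℝ) < a / (|b| + 1) / (3 / 2) := by positivity
  obtain ⟨N, hN⟩ := Filter.eventually_atTop.1 (h2.eventually (gt_mem_nhds h3))
  refine ⟨N, fun n hn => ?_⟩
  have h4 := hN n hn
  simp only [Function.comp_apply] at h4
  push_cast at h4
  have h5 : (0 : ℝ) < (3 / 2) ^ (n + 1) := by positivity
  rw [div_lt_iff₀ h5, pow_succ] at h4
  have h6 : a / (|b| + 1) / (3 / 2) * ((3 / 2) ^ n * (3 / 2)) = a / (|b| + 1) * (3 / 2) ^ n := by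
    ring
  rw [h6] at h4
  have h7 : b * ((n : ℝ) + 1) ^ m ≤ (|b| + 1) * ((n : ℝ) + 1) ^ m := by
    apply mul_le_mul_of_nonneg_right _ (by positivity)
    linarith [le_abs_self b]
  have h8 : (|b| + 1) * ((n : ℝ) + 1) ^ m ≤ (|b| + 1) * (a / (|b| + 1) * (3 / 2) ^ n) :=
    mul_le_mul_of_nonneg_left h4.le (by positivity)
  have h9 : (|b| + 1) * (a / (|b| + 1) * (3 / 2) ^ n) = a * (3 / 2) ^ n := by
    have : |b| + 1 ≠ 0 := by positivity
    field_simp
  linarith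

theorem lower_pos_gen (P Q : ℝ[X]) (hP : P ≠ 0) (hQ : ∀ k : ℕ, Q.eval (k:ℝ) ≠ 0) :
    ∃ (c : ℝ) (D N : ℕ), 0 < c ∧ ∀ n : ℕ, N ≤ n →
      c / ((n:ℝ) + 1) ^ D * (3 / 2) ^ n ≤
        |∑ k ∈ Finset.range (n + 1), (n.choose k : ℝ) * (P.eval (k:ℝ) / Q.eval (k:ℝ)) * (1/2:ℝ) ^ k| := by
  have hQ0 : Q ≠ 0 := by
    intro h
    have := hQ 0
    rw [h] at this
    simp at this
  obtain ⟨ε, c0, K, hε, hc0, hK⟩ := lower_pos_poly (P * Q) (mul_ne_zero hP hQ0)
  obtain ⟨CQ, hCQ0, hCQ⟩ := lower_pos_polyabs (Q ^ 2)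
  set D : ℕ := (Q ^ 2).natDegree with hD
  set c1 : ℝ := c0 / CQ with hc1
  have hc1p : 0 < c1 := by positivity
  set F : ℕ → ℝ := fun k => P.eval (k:ℝ) / Q.eval (k:ℝ) with hF
  have hlow : ∀ k : ℕ, K ≤ k → c1 / ((k : ℝ) + 1) ^ D ≤ ε * F k := by
    intro k hk
    have q1 : 0 < (Q.eval (k:ℝ)) ^ 2 := by have := hQ k; positivity
    have q2 := hCQ k
    rw [eval_pow, abs_of_pos q1] at q2
    have h1 := hK k hk
    rw [eval_mul] at h1
    have h2 : c0 ≤ (ε * F k) * (Q.eval (k:ℝ)) ^ 2 := by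
      calc c0 ≤ _ := h1
        _ = _ := by
          simp only [hF]
          have := hQ k
          field_simp
    have hpos : 0 < ε * F k := by
      by_contra hneg
      have := mul_nonpos_of_nonpos_of_nonneg (not_lt.1 hneg) q1.le
      linarith
    have h3 : c0 ≤ (ε * F k) * (CQ * ((k : ℝ) + 1) ^ D) :=
      h2.trans (mul_le_mul_of_nonneg_left q2 hpos.le)
    rw [hc1, div_div, div_le_iff₀ (by positivity)]
    exact h3
  set B : ℝ := ∑ k ∈ Finset.range K, |F k| with hB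
  have hB0 : 0 ≤ B := Finset.sum_nonneg fun k _ => abs_nonneg _
  have habs : ∀ x : ℝ, |ε * x| = |x| := by
    intro x
    rcases hε with h | h <;> simp [h]
  have hFB : ∀ k : ℕ, k < K → -B ≤ ε * F k := by
    intro k hk
    have h1 : |F k| ≤ B := Finset.single_le_sum (f := fun k => |F k|)
      (fun _ _ => abs_nonneg _) (Finset.mem_range.2 hk)
    have h2 := neg_abs_le (ε * F k)
    rw [habs] at h2
    linarith
  obtain ⟨N, hN⟩ := lower_pos_asym (c1 / 2) ((B + c1) * K) (by positivity) (K + D)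
  refine ⟨c1 / 2, D, N, by positivity, ?_⟩
  intro n hn
  have hn1 : (0 : ℝ) < (n : ℝ) + 1 := by positivity
  have hpt : ∀ k ∈ Finset.range (n + 1),
      (n.choose k : ℝ) * (1 / 2) ^ k * (c1 / ((n : ℝ) + 1) ^ D) -
        (B + c1) * (if k < K then (n.choose k : ℝ) * (1 / 2) ^ k else 0)
      ≤ ε * ((n.choose k : ℝ) * F k * (1 / 2) ^ k) := by
    intro k hk
    have hkn : k ≤ n := Nat.lt_succ_iff.1 (Finset.mem_range.1 hk)
    have hw : (0 : ℝ) ≤ (n.choose k : ℝ) * (1 / 2) ^ k := by positivity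
    have e : ε * ((n.choose k : ℝ) * F k * (1 / 2) ^ k) =
        ((n.choose k : ℝ) * (1 / 2) ^ k) * (ε * F k) := by ring
    rw [e]
    split_ifs with h
    · have h1 : c1 / ((n : ℝ) + 1) ^ D ≤ c1 := by
        apply div_le_self hc1p.le
        exact one_le_pow₀ (by linarith [Nat.cast_nonneg (α := ℝ) n])
      have h2 := hFB k h
      have h3 : ((n.choose k : ℝ) * (1 / 2) ^ k) * (c1 / ((n : ℝ) + 1) ^ D - (B + c1)) ≤
          ((n.choose k : ℝ) * (1 / 2) ^ k) * (ε * F k) :=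
        mul_le_mul_of_nonneg_left (by linarith) hw
      calc _ = ((n.choose k : ℝ) * (1 / 2) ^ k) * (c1 / ((n : ℝ) + 1) ^ D - (B + c1)) := by ring
        _ ≤ _ := h3
    · rw [mul_zero, sub_zero]
      apply mul_le_mul_of_nonneg_left _ hw
      refine le_trans ?_ (hlow k (not_lt.1 h))
      apply div_le_div_of_nonneg_left hc1p.le (by positivity)
      apply pow_le_pow_left₀ (by positivity)
      have : (k : ℝ) ≤ n := by exact_mod_cast hkn
      linarith
  have hsum := Finset.sum_le_sum hpt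
  rw [Finset.sum_sub_distrib, ← Finset.sum_mul, ← Finset.mul_sum, ← Finset.mul_sum,
    lower_pos_binom] at hsum
  have hch := lower_pos_choose n K
  have hmain : c1 / 2 / ((n : ℝ) + 1) ^ D * (3 / 2) ^ n ≤
      ε * ∑ k ∈ Finset.range (n + 1), (n.choose k : ℝ) * F k * (1 / 2) ^ k := by
    refine le_trans ?_ hsum
    have h1 : (B + c1) * (∑ k ∈ Finset.range (n + 1),
        if k < K then (n.choose k : ℝ) * (1 / 2) ^ k else 0) ≤
        (B + c1) * (K * ((n : ℝ) + 1) ^ K) := mul_le_mul_of_nonneg_left hch (by positivity)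
    have h2 := hN n hn
    have hDp : (0 : ℝ) < ((n : ℝ) + 1) ^ D := by positivity
    have h3 : (B + c1) * (K * ((n : ℝ) + 1) ^ K) ≤
        c1 / 2 / ((n : ℝ) + 1) ^ D * (3 / 2) ^ n := by
      rw [div_mul_eq_mul_div, le_div_iff₀ hDp]
      calc (B + c1) * (K * ((n : ℝ) + 1) ^ K) * ((n : ℝ) + 1) ^ D
          = (B + c1) * K * ((n : ℝ) + 1) ^ (K + D) := by ring
        _ ≤ _ := h2
    have h4 : (3 / 2) ^ n * (c1 / ((n : ℝ) + 1) ^ D) =
        c1 / 2 / ((n : ℝ) + 1) ^ D * (3 / 2) ^ n + c1 / 2 / ((n : ℝ) + 1) ^ D * (3 / 2) ^ n := by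
      ring
    rw [h4]
    linarith
  refine hmain.trans ?_
  rw [← habs]
  exact le_abs_self _

/-! ### part R6 -/

theorem small_of (C c1 : ℝ) (D D1 N1 : ℕ) (hC : 0 < C) (h1 : 0 < c1) (u v w : ℕ → ℝ)
    (hu : ∀ n : ℕ, u n ≤ C * ((n:ℝ) + 1) ^ D * (Real.sqrt 5 / 2) ^ n) (hu0 : ∀ n, 0 ≤ u n)
    (hv : ∀ n : ℕ, N1 ≤ n → c1 / ((n:ℝ) + 1) ^ D1 * (3 / 2) ^ n ≤ v n) (hw0 : ∀ n, 0 ≤ w n)
    (h : ∀ n : ℕ, v n * w n ≤ u n ^ 2) : ∃ (C' ρ : ℝ), 0 < ρ ∧ ρ < 1 ∧ ∀ n, w n ≤ C' * ρ ^ n := by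
  have hr0 : (0 : ℝ) < 25 / 27 := by norm_num
  have ht := tendsto_pow_const_mul_const_pow_of_abs_lt_one (2 * D + D1) (r := (25 / 27 : ℝ))
    (by rw [abs_of_pos hr0]; norm_num)
  obtain ⟨B, hB⟩ := ht.bddAbove_range
  have hBn : ∀ n : ℕ, (n : ℝ) ^ (2 * D + D1) * (25 / 27 : ℝ) ^ n ≤ B := fun n => hB ⟨n, rfl⟩
  have hB0 : 0 ≤ B := le_trans (by positivity) (hBn 0)
  have hB1 : ∀ n : ℕ, ((n : ℝ) + 1) ^ (2 * D + D1) * (25 / 27 : ℝ) ^ n ≤ B / (25 / 27) := by
    intro n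
    have h1 := hBn (n + 1)
    rw [le_div_iff₀ hr0, mul_assoc, ← pow_succ]
    push_cast at h1
    exact h1
  have hs5 : (Real.sqrt 5 / 2) ^ 2 = 5 / 4 := by
    rw [div_pow, Real.sq_sqrt (by norm_num)]; norm_num
  refine ⟨C ^ 2 / c1 * (B / (25 / 27)) + ∑ i ∈ Finset.range N1, w i / (9 / 10 : ℝ) ^ i, 9 / 10,
    by norm_num, by norm_num, fun n => ?_⟩
  have hp9 : (0 : ℝ) < (9 / 10 : ℝ) ^ n := by positivity
  have hsum0 : 0 ≤ ∑ i ∈ Finset.range N1, w i / (9 / 10 : ℝ) ^ i :=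
    Finset.sum_nonneg fun i _ => div_nonneg (hw0 i) (by positivity)
  have hK0 : 0 ≤ C ^ 2 / c1 * (B / (25 / 27)) := by positivity
  rcases lt_or_ge n N1 with hn | hn
  · have h1 : w n / (9 / 10 : ℝ) ^ n ≤ ∑ i ∈ Finset.range N1, w i / (9 / 10 : ℝ) ^ i :=
      Finset.single_le_sum (f := fun i => w i / (9 / 10 : ℝ) ^ i)
        (fun i _ => div_nonneg (hw0 i) (by positivity)) (Finset.mem_range.2 hn)
    rw [div_le_iff₀ hp9] at h1
    nlinarith
  · have hv1 := hv n hn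
    have hpn : (0 : ℝ) < ((n : ℝ) + 1) ^ D1 := by positivity
    have h32 : (0 : ℝ) < (3 / 2 : ℝ) ^ n := by positivity
    have hu1 : u n ^ 2 ≤ (C * ((n:ℝ) + 1) ^ D * (Real.sqrt 5 / 2) ^ n) ^ 2 :=
      pow_le_pow_left₀ (hu0 n) (hu n) 2
    have hu2 : (C * ((n:ℝ) + 1) ^ D * (Real.sqrt 5 / 2) ^ n) ^ 2 =
        C ^ 2 * ((n:ℝ) + 1) ^ (2 * D) * (5 / 4 : ℝ) ^ n := by
      rw [mul_pow, mul_pow, ← pow_mul, ← pow_mul, mul_comm D 2, mul_comm n 2, pow_mul (√5 / 2), hs5]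
    rw [hu2] at hu1
    have h3 : c1 / ((n:ℝ) + 1) ^ D1 * (3 / 2) ^ n * w n ≤
        C ^ 2 * ((n:ℝ) + 1) ^ (2 * D) * (5 / 4 : ℝ) ^ n :=
      (mul_le_mul_of_nonneg_right hv1 (hw0 n)).trans ((h n).trans hu1)
    have h4 : w n ≤ C ^ 2 / c1 * (((n:ℝ) + 1) ^ (2 * D + D1) * (25 / 27 : ℝ) ^ n) * (9 / 10 : ℝ) ^ n := by
      have e1 : (5 / 4 : ℝ) ^ n = (25 / 27 : ℝ) ^ n * (9 / 10 : ℝ) ^ n * (3 / 2 : ℝ) ^ n := by
        rw [← mul_pow, ← mul_pow]; norm_num
      rw [e1] at h3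
      have h5 : c1 * w n * (3 / 2 : ℝ) ^ n ≤ C ^ 2 * ((n:ℝ) + 1) ^ (2 * D + D1) *
          ((25 / 27 : ℝ) ^ n * (9 / 10 : ℝ) ^ n) * (3 / 2 : ℝ) ^ n := by
        have h6 := mul_le_mul_of_nonneg_left h3 hpn.le
        have e2 : ((n:ℝ) + 1) ^ D1 * (c1 / ((n:ℝ) + 1) ^ D1 * (3 / 2) ^ n * w n) =
            c1 * w n * (3 / 2 : ℝ) ^ n := by field_simp
        have e3 : ((n:ℝ) + 1) ^ D1 * (C ^ 2 * ((n:ℝ) + 1) ^ (2 * D) *
            ((25 / 27 : ℝ) ^ n * (9 / 10 : ℝ) ^ n * (3 / 2 : ℝ) ^ n)) =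
            C ^ 2 * ((n:ℝ) + 1) ^ (2 * D + D1) *
          ((25 / 27 : ℝ) ^ n * (9 / 10 : ℝ) ^ n) * (3 / 2 : ℝ) ^ n := by
          rw [pow_add]; ring
        rw [e2, e3] at h6
        exact h6
      have h7 := le_of_mul_le_mul_right h5 h32
      have e4 : C ^ 2 / c1 * (((n:ℝ) + 1) ^ (2 * D + D1) * (25 / 27 : ℝ) ^ n) * (9 / 10 : ℝ) ^ n =
          (C ^ 2 * ((n:ℝ) + 1) ^ (2 * D + D1) * ((25 / 27 : ℝ) ^ n * (9 / 10 : ℝ) ^ n)) / c1 := by
        ring
      rw [e4, le_div_iff₀ h1]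
      linarith
    have h8 : C ^ 2 / c1 * (((n:ℝ) + 1) ^ (2 * D + D1) * (25 / 27 : ℝ) ^ n) ≤
        C ^ 2 / c1 * (B / (25 / 27)) := mul_le_mul_of_nonneg_left (hB1 n) (by positivity)
    calc w n ≤ C ^ 2 / c1 * (((n:ℝ) + 1) ^ (2 * D + D1) * (25 / 27 : ℝ) ^ n) * (9 / 10 : ℝ) ^ n := h4
      _ ≤ C ^ 2 / c1 * (B / (25 / 27)) * (9 / 10 : ℝ) ^ n := mul_le_mul_of_nonneg_right h8 hp9.le
      _ ≤ _ := mul_le_mul_of_nonneg_right (by linarith) hp9.le

/-! ### assembly -/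

theorem real_rooted_ineq2 (F : ℕ → ℝ) (hF : IsMultiplier F) (n : ℕ) :
    |∑ k ∈ Finset.range (n + 1), (n.choose k : ℝ) * F k * (1/2:ℝ) ^ k| *
      |∑ k ∈ Finset.range (n + 1), (n.choose k : ℝ) * F k * (-(1/2):ℝ) ^ k| ≤
      ‖∑ k ∈ Finset.range (n + 1), (n.choose k : ℂ) * (F k : ℂ) * (((1/2:ℝ):ℂ) * Complex.I) ^ k‖ ^ 2 := by
  have h := real_rooted_ineq (jen F n) (jen_hyperbolic _ hF n) (1 / 2)
  rw [abs_mul] at h
  have e1 : ∀ x : ℝ, (jen F n).eval x = ∑ k ∈ Finset.range (n + 1), (n.choose k : ℝ) * F k * x ^ k := by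
    intro x
    unfold jen
    rw [eval_finsetSum]
    refine Finset.sum_congr rfl fun k _ => ?_
    rw [eval_mul, eval_C, eval_pow, eval_X]
  have e2 : aeval (((1/2:ℝ):ℂ) * Complex.I) (jen F n) =
      ∑ k ∈ Finset.range (n + 1), (n.choose k : ℂ) * (F k : ℂ) * (((1/2:ℝ):ℂ) * Complex.I) ^ k := by
    unfold jen
    rw [map_sum]
    refine Finset.sum_congr rfl fun k _ => ?_
    rw [map_mul, aeval_C, map_pow, aeval_X]
    simp
  rw [e1, e1, e2] at h
  exact h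

/-- the key case: all zeros of `Q` in the open left half plane -/
theorem left_case (P Q : ℝ[X]) (hcop : IsCoprime P Q) (hQ0 : Q ≠ 0) (hP0 : P ≠ 0)
    (hroots : ∀ z : ℂ, aeval z Q = 0 → z.re < 0)
    (hm : IsMultiplier (fun k : ℕ => P.eval (k:ℝ) / Q.eval (k:ℝ))) : Q.natDegree = 0 := by
  have aeR : ∀ (G : ℝ[X]) (x : ℝ), aeval (x : ℂ) G = ((G.eval x : ℝ) : ℂ) := by
    intro G x
    rw [← Complex.coe_algebraMap, aeval_algebraMap_apply, Complex.coe_algebraMap]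
    simp [aeval_def]
  have hQk : ∀ k : ℕ, Q.eval (k:ℝ) ≠ 0 := by
    intro k hk
    have h1 := hroots ((k:ℝ):ℂ) (by rw [aeR, hk]; simp)
    have h2 : (0:ℝ) ≤ k := Nat.cast_nonneg k
    have h3 : (((k:ℝ):ℂ)).re = (k:ℝ) := Complex.ofReal_re _
    linarith
  -- the complex data
  set Qc : ℂ[X] := Q.map (algebraMap ℝ ℂ) with hQc
  have hQc0 : Qc ≠ 0 := (Polynomial.map_ne_zero_iff (algebraMap ℝ ℂ).injective).2 hQ0
  set S : Multiset ℂ := Qc.roots.map (fun z => -z) with hSdef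
  set lc : ℂ := Qc.leadingCoeff with hlc
  have hlc0 : lc ≠ 0 := leadingCoeff_ne_zero.2 hQc0
  set Pc : ℂ[X] := C lc⁻¹ * P.map (algebraMap ℝ ℂ) with hPc
  have hfac : ∀ s : ℂ, Qc.eval s = lc * (S.map (fun α => s + α)).prod := by
    intro s
    have h1 := (IsAlgClosed.splits Qc).eq_prod_roots
    conv_lhs => rw [h1]
    rw [eval_mul, eval_C, eval_multiset_prod, Multiset.map_map, hSdef, Multiset.map_map]
    congr 2
    refine Multiset.map_congr rfl fun z _ => ?_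
    simp [sub_eq_add_neg]
  have hS : ∀ α ∈ S, 0 < α.re := by
    intro α hα
    rw [hSdef, Multiset.mem_map] at hα
    obtain ⟨z, hz, rfl⟩ := hα
    have h1 : aeval z Q = 0 := by
      rw [← eval_map_algebraMap]
      exact (mem_roots'.1 hz).2
    have h2 := hroots z h1
    rw [Complex.neg_re]
    linarith
  have hrv : ∀ k : ℕ, rv Pc S k = ((P.eval (k:ℝ) / Q.eval (k:ℝ) : ℝ) : ℂ) := by
    intro k
    unfold rv
    have h1 := hfac ((k:ℝ):ℂ)
    have h2 : Qc.eval ((k:ℝ):ℂ) = ((Q.eval (k:ℝ) : ℝ):ℂ) := by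
      rw [← aeR, hQc, eval_map_algebraMap]
    have h3 : (P.map (algebraMap ℝ ℂ)).eval ((k:ℝ):ℂ) = ((P.eval (k:ℝ) : ℝ):ℂ) := by
      rw [← aeR, eval_map_algebraMap]
    rw [h2] at h1
    have h4 : ((k:ℕ):ℂ) = (((k:ℝ)):ℂ) := by push_cast; rfl
    rw [h4, hPc, eval_mul, eval_C, h3, Complex.ofReal_div, h1]
    field_simp
  have hjen : ∀ (n : ℕ) (y : ℂ), jenC (rv Pc S) n y =
      ∑ k ∈ Finset.range (n + 1), (n.choose k : ℂ) *
        (((fun k : ℕ => P.eval (k:ℝ) / Q.eval (k:ℝ)) k : ℝ) : ℂ) * y ^ k := by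
    intro n y
    unfold jenC
    refine Finset.sum_congr rfl fun k _ => ?_
    rw [hrv]
  -- upper bound at `i/2`
  have hs5 : (1:ℝ) ≤ Real.sqrt 5 / 2 := by
    have : (2:ℝ) ≤ Real.sqrt 5 := by
      apply Real.le_sqrt_of_sq_le
      norm_num
    linarith
  obtain ⟨C, D, hC, hu⟩ := jen_bound Pc S hS (((1/2:ℝ):ℂ) * Complex.I) (Real.sqrt 5 / 2) hs5 (by
    intro t ht0 ht1
    have e : ‖(1:ℂ) + (t:ℂ) * (((1/2:ℝ):ℂ) * Complex.I)‖ = Real.sqrt (1 + (t / 2) ^ 2) := by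
      have : (1:ℂ) + (t:ℂ) * (((1/2:ℝ):ℂ) * Complex.I) = ((1:ℝ):ℂ) + ((t/2:ℝ):ℂ) * Complex.I := by
        push_cast; ring
      rw [this, Complex.norm_add_mul_I]
      norm_num
    rw [e]
    have h5 : Real.sqrt 5 / 2 = Real.sqrt (5 / 4) := by
      rw [show (5:ℝ) / 4 = 5 / 2 ^ 2 by norm_num, Real.sqrt_div (by norm_num : (0:ℝ) ≤ 5),
        Real.sqrt_sq (by norm_num : (0:ℝ) ≤ 2)]
    rw [h5]
    apply Real.sqrt_le_sqrt
    nlinarith)
  obtain ⟨c1, D1, N1, hc1, hv⟩ := lower_pos_gen P Q hP0 hQk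
  obtain ⟨C', ρ, hρ0, hρ1, hw⟩ := small_of C c1 D D1 N1 hC hc1
    (fun n => ‖jenC (rv Pc S) n (((1/2:ℝ):ℂ) * Complex.I)‖)
    (fun n => |∑ k ∈ Finset.range (n + 1), (n.choose k : ℝ) * (P.eval (k:ℝ) / Q.eval (k:ℝ)) * (1/2:ℝ) ^ k|)
    (fun n => |∑ k ∈ Finset.range (n + 1), (n.choose k : ℝ) * (P.eval (k:ℝ) / Q.eval (k:ℝ)) * (-(1/2):ℝ) ^ k|)
    (fun n => by simpa using hu n 1 zero_le_one le_rfl) (fun n => norm_nonneg _) hv
    (fun n => abs_nonneg _)
    (fun n => by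
      have := real_rooted_ineq2 _ hm n
      simp only [hjen]
      exact this)
  have hsmall : ∀ n, ‖jenC (rv Pc S) n (-(1/2:ℂ))‖ ≤ C' * ρ ^ n := by
    intro n
    have e : jenC (rv Pc S) n (-(1/2:ℂ)) =
        ((∑ k ∈ Finset.range (n + 1), (n.choose k : ℝ) * (P.eval (k:ℝ) / Q.eval (k:ℝ)) *
          (-(1/2):ℝ) ^ k : ℝ) : ℂ) := by
      rw [hjen]
      push_cast
      rfl
    rw [e, Complex.norm_real, Real.norm_eq_abs]
    exact hw n
  have hpc := pole_cancel Pc S hS (jen_identity Pc S hS)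
    (fun h C ρ h0 h1 hh => (cc_entire h C ρ h0 h1 hh).1) C' ρ hρ0 hρ1 hsmall
  -- conclusion: a root of `Q` is a root of `P`
  by_contra hdeg
  have hdegQ : Q.degree ≠ 0 := by
    intro h
    exact hdeg (natDegree_eq_of_degree_eq_some h)
  obtain ⟨z, hz⟩ := IsAlgClosed.exists_aeval_eq_zero ℂ Q hdegQ
  have hzS : -z ∈ S := by
    rw [hSdef, Multiset.mem_map]
    refine ⟨z, ?_, rfl⟩
    rw [mem_roots hQc0, IsRoot.def, hQc, eval_map_algebraMap]
    exact hz
  have h1 := hpc (-z) hzS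
  rw [neg_neg, hPc, eval_mul, eval_C, eval_map_algebraMap] at h1
  have h2 : aeval z P = 0 := (mul_eq_zero.mp h1).resolve_left (inv_ne_zero hlc0)
  obtain ⟨a, b, hab⟩ := hcop
  have h3 := congrArg (aeval z) hab
  rw [map_add, map_mul, map_mul, h2, hz, mul_zero, mul_zero, add_zero, map_one] at h3
  exact zero_ne_one h3

theorem coprime_case (P Q : ℝ[X]) (hcop : IsCoprime P Q) (hQ0 : Q ≠ 0) (hP0 : P ≠ 0)
    (hm : IsMultiplier (fun k : ℕ => P.eval (k:ℝ) / Q.eval (k:ℝ))) : Q.natDegree = 0 := by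
  obtain ⟨m, hmm⟩ : ∃ m : ℕ, ∀ z : ℂ, aeval z Q = 0 → z.re < m := by
    have hfin : (Q.rootSet ℂ).Finite := Q.rootSet_finite ℂ
    obtain ⟨M, hM⟩ := (hfin.image Complex.re).bddAbove
    obtain ⟨m, hm'⟩ := exists_nat_gt M
    refine ⟨m, fun z hz => lt_of_le_of_lt (hM ⟨z, ?_, rfl⟩) hm'⟩
    exact (Polynomial.mem_rootSet).2 ⟨hQ0, hz⟩
  have h1 := mult_shift_iter _ hm m
  have hev : ∀ (G : ℝ[X]) (k : ℕ), (G.comp (X + C (m:ℝ))).eval (k:ℝ) = G.eval (((k + m : ℕ)):ℝ) := by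
    intro G k
    rw [eval_comp]
    simp
  have h2 : (fun k : ℕ => (P.comp (X + C (m:ℝ))).eval (k:ℝ) / (Q.comp (X + C (m:ℝ))).eval (k:ℝ)) =
      (fun k : ℕ => P.eval (((k + m : ℕ)):ℝ) / Q.eval (((k + m : ℕ)):ℝ)) := by
    funext k
    rw [hev, hev]
  have h3 : IsMultiplier (fun k : ℕ => (P.comp (X + C (m:ℝ))).eval (k:ℝ) /
      (Q.comp (X + C (m:ℝ))).eval (k:ℝ)) := by
    rw [h2]
    exact h1
  have hcomp0 : ∀ G : ℝ[X], G ≠ 0 → G.comp (X + C (m:ℝ)) ≠ 0 := by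
    intro G hG h
    have h4 : G.natDegree * 1 = 0 := by
      have := congrArg natDegree h
      rw [natDegree_comp, natDegree_X_add_C, natDegree_zero] at this
      exact this
    obtain ⟨c, hc⟩ := natDegree_eq_zero.mp (by simpa using h4 : G.natDegree = 0)
    rw [← hc, C_comp] at h
    exact hG (by rw [← hc, h])
  have h5 := left_case (P.comp (X + C (m:ℝ))) (Q.comp (X + C (m:ℝ))) ?_ (hcomp0 Q hQ0)
    (hcomp0 P hP0) ?_ h3
  · rw [natDegree_comp, natDegree_X_add_C, mul_one] at h5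
    exact h5
  · obtain ⟨a, b, hab⟩ := hcop
    refine ⟨a.comp (X + C (m:ℝ)), b.comp (X + C (m:ℝ)), ?_⟩
    rw [← mul_comp, ← mul_comp, ← add_comp, hab, one_comp]
  · intro z hz
    rw [aeval_comp] at hz
    have h6 := hmm _ hz
    have h7 : aeval z (X + C (m:ℝ)) = z + (m:ℂ) := by simp
    rw [h7, Complex.add_re] at h6
    have h8 : ((m:ℂ)).re = (m:ℝ) := by simp
    linarith

/-- Let `F = P/Q` be a real rational function in lowest terms, without poles at `0, 1, 2, …`. Then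
`(F(k))` is a multiplier sequence if and only if `F` is a polynomial `p` and `(p(k))` is a
multiplier sequence. -/
theorem result (P Q : ℝ[X]) (hQ0 : Q ≠ 0) (hnat : ∀ k : ℕ, Q.eval (k:ℝ) ≠ 0) :
    IsMultiplier (fun k : ℕ => P.eval (k:ℝ) / Q.eval (k:ℝ)) ↔
      ∃ p : ℝ[X], P = Q * p ∧ IsMultiplier (fun k : ℕ => p.eval (k:ℝ)) := by
  constructor
  · intro hm
    by_cases hP0 : P = 0
    · refine ⟨0, by rw [hP0, mul_zero], ?_⟩
      have e : (fun k : ℕ => P.eval (k:ℝ) / Q.eval (k:ℝ)) = (fun k : ℕ => (0 : ℝ[X]).eval (k:ℝ)) := by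
        funext k
        rw [hP0]
        simp
      rw [← e]
      exact hm
    · obtain ⟨g, P1, Q1, hP1, hQ1, hcop⟩ : ∃ g P1 Q1 : ℝ[X], P = g * P1 ∧ Q = g * Q1 ∧
          IsCoprime P1 Q1 := by
        obtain ⟨g, a, b, hgP, hgQ, hgab, hg0⟩ : ∃ g a b : ℝ[X], g ∣ P ∧ g ∣ Q ∧
            g = P * a + Q * b ∧ g ≠ 0 :=
          ⟨EuclideanDomain.gcd P Q, EuclideanDomain.gcdA P Q, EuclideanDomain.gcdB P Q,
            EuclideanDomain.gcd_dvd_left P Q, EuclideanDomain.gcd_dvd_right P Q,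
            EuclideanDomain.gcd_eq_gcd_ab P Q,
            fun h => hQ0 (EuclideanDomain.gcd_eq_zero_iff.mp h).2⟩
        obtain ⟨P1, hP1⟩ := hgP
        obtain ⟨Q1, hQ1⟩ := hgQ
        refine ⟨g, P1, Q1, hP1, hQ1, a, b, ?_⟩
        have h1 : g = (g * P1) * a + (g * Q1) * b := by
          rw [← hP1, ← hQ1]
          exact hgab
        apply mul_left_cancel₀ hg0
        linear_combination -h1
      have hg0 : g ≠ 0 := by
        rintro rfl
        exact hQ0 (by rw [hQ1, zero_mul])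
      have hQ10 : Q1 ≠ 0 := by
        rintro rfl
        exact hQ0 (by rw [hQ1, mul_zero])
      have hP10 : P1 ≠ 0 := by
        rintro rfl
        exact hP0 (by rw [hP1, mul_zero])
      have hgk : ∀ k : ℕ, g.eval (k:ℝ) ≠ 0 := by
        intro k hk
        exact hnat k (by rw [hQ1, eval_mul, hk, zero_mul])
      have e : (fun k : ℕ => P.eval (k:ℝ) / Q.eval (k:ℝ)) =
          (fun k : ℕ => P1.eval (k:ℝ) / Q1.eval (k:ℝ)) := by
        funext k
        rw [hP1, hQ1, eval_mul, eval_mul, mul_div_mul_left _ _ (hgk k)]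
      rw [e] at hm
      have hd := coprime_case P1 Q1 hcop hQ10 hP10 hm
      obtain ⟨c, hc⟩ := natDegree_eq_zero.mp hd
      have hc0 : c ≠ 0 := by
        rintro rfl
        exact hQ10 (by rw [← hc, C_0])
      refine ⟨C c⁻¹ * P1, ?_, ?_⟩
      · rw [hP1, hQ1, ← hc]
        have : (C c : ℝ[X]) * C c⁻¹ = 1 := by rw [← C_mul, mul_inv_cancel₀ hc0, C_1]
        rw [mul_assoc, ← mul_assoc (C c), this, one_mul]
      · have e2 : (fun k : ℕ => (C c⁻¹ * P1).eval (k:ℝ)) =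
            (fun k : ℕ => P1.eval (k:ℝ) / Q1.eval (k:ℝ)) := by
          funext k
          rw [← hc, eval_mul, eval_C, eval_C, div_eq_mul_inv, mul_comm]
        rw [e2]
        exact hm
  · rintro ⟨p, rfl, hp⟩
    have e : (fun k : ℕ => (Q * p).eval (k:ℝ) / Q.eval (k:ℝ)) = (fun k : ℕ => p.eval (k:ℝ)) := by
      funext k
      rw [eval_mul, mul_div_cancel_left₀ _ (hnat k)]
    rw [e]
    exact hp

end Pool.Agent.Results.MP_d164ca_an.RationalFunctions
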